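import Pool.Agent.MP_0be28d_co.Mg.Odd

/-!
Girth five: surgery across a vertex cut.  New edges go from the side `C` to the side `D`; every
vertex that exchanges neighbours is a neighbour of a fixed vertex (`c` in `C`, `d` in `D`).
-/

set_option autoImplicit false

namespace Pool.Agent.MP_0be28d_co.Five

open SimpleGraph Finset

variable {V : Type*}

/-- no triangle -/
def NoT (H : SimpleGraph V) : Prop := ∀ a b c, H.Adj a b → H.Adj b c → H.Adj c a → False

/-- no cycle of length four -/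
def NoQ (H : SimpleGraph V) : Prop :=
  ∀ a b c d, H.Adj a b → H.Adj b c → H.Adj c d → H.Adj d a → a = c ∨ b = d

theorem girth_of {H : SimpleGraph V} (h3 : NoT H) (h4 : NoQ H) : GirthGe H 5 := by
  intro a b hab n hn
  by_contra hlt
  have hn4 : n < 4 := by omega
  interval_cases n
  · exact hab.ne (hn.eq_of_zero).symm
  · exact hn.adj_of_one.2 Sym2.eq_swap
  · obtain ⟨x, h1, h2⟩ := hn.succ_elim
    exact h3 a b x hab h1.1 h2.adj_of_one.1
  · obtain ⟨x, h1, h2⟩ := hn.succ_elim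
    obtain ⟨y, h2, h6⟩ := h2.succ_elim
    have h5 := h6.adj_of_one
    rcases h4 a b x y hab h1.1 h2.1 h5.1 with rfl | rfl
    · exact h1.2 Sym2.eq_swap
    · exact h5.2 Sym2.eq_swap

theorem NoT.anti {G H : SimpleGraph V} (h : NoT G) (hle : ∀ a b, H.Adj a b → G.Adj a b) :
    NoT H := fun a b c h1 h2 h3 => h a b c (hle _ _ h1) (hle _ _ h2) (hle _ _ h3)

theorem NoQ.anti {G H : SimpleGraph V} (h : NoQ G) (hle : ∀ a b, H.Adj a b → G.Adj a b) :
    NoQ H := fun a b c d h1 h2 h3 h4 =>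
  h a b c d (hle _ _ h1) (hle _ _ h2) (hle _ _ h3) (hle _ _ h4)

/-- two common neighbours `p`, `q` of two distinct vertices coincide -/
theorem NoQ.uniq {G : SimpleGraph V} (h : NoQ G) {a b p q : V} (hab : a ≠ b) (h1 : G.Adj p a)
    (h2 : G.Adj p b) (h3 : G.Adj q a) (h4 : G.Adj q b) : p = q := by
  rcases h a p b q h1.symm h2 h4.symm h3 with h | h
  · exact absurd h hab
  · exact h

theorem add_edges {Γ H : SimpleGraph V} {Nw : V → V → Prop} {P : V → Prop}
    (hH : ∀ a b, H.Adj a b ↔ Γ.Adj a b ∨ Nw a b ∨ Nw b a) (t3 : NoT Γ) (t4 : NoQ Γ)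
    (hP : ∀ x y, Nw x y → P x ∧ ¬ P y)
    (fn : ∀ x y y', Nw x y → Nw x y' → y = y')
    (h2 : ∀ x y t, Nw x y → Γ.Adj x t → Γ.Adj t y → False)
    (h3 : ∀ x y t t', Nw x y → Γ.Adj x t → Γ.Adj t t' → Γ.Adj t' y → False)
    (hs1 : ∀ x x' y, Nw x y → Nw x' y → Γ.Adj x x' → False)
    (hs2 : ∀ x x' y t, Nw x y → Nw x' y → Γ.Adj x t → Γ.Adj t x' → x = x')
    (hd : ∀ x x' y y', Nw x y → Nw x' y' → Γ.Adj x x' → Γ.Adj y y' → False)
    (he : ∀ x x' y y', Nw x y → Nw x' y' → Γ.Adj x y' → False) :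
    NoT H ∧ NoQ H := by
  have k3 : ∀ x y t, Nw x y → H.Adj y t → H.Adj t x → False := by
    intro x y t h a b
    rcases (hH _ _).mp b with b | b | b
    · rcases (hH _ _).mp a with a | a | a
      · exact h2 x y t h b.symm a.symm
      · exact (hP _ _ h).2 (hP _ _ a).1
      · exact hs1 x t y h a b.symm
    · exact (hP _ _ b).2 (hP _ _ h).1
    · exact a.ne (fn _ _ _ h b)
  have k4 : ∀ x y p q, Nw x y → H.Adj y p → H.Adj p q → H.Adj q x → x = p ∨ y = q := by
    intro x y p q h a b c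
    rcases (hH _ _).mp c with c | c | c
    · rcases (hH _ _).mp a with a | a | a
      · rcases (hH _ _).mp b with b | b | b
        · exact (h3 x y q p h c.symm b.symm a.symm).elim
        · exact (he x p y q h b c.symm).elim
        · exact (hd x q y p h b c.symm a).elim
      · exact ((hP _ _ h).2 (hP _ _ a).1).elim
      · rcases (hH _ _).mp b with b | b | b
        · exact Or.inl (hs2 x p y q h a c.symm b.symm)
        · exact Or.inr (fn _ _ _ a b)
        · exact ((hP _ _ b).2 (hP _ _ a).1).elim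
    · exact ((hP _ _ c).2 (hP _ _ h).1).elim
    · exact Or.inr (fn _ _ _ h c)
  constructor
  · intro a b c h1 h2 h3
    rcases (hH _ _).mp h1 with g1 | g1 | g1
    · rcases (hH _ _).mp h2 with g2 | g2 | g2
      · rcases (hH _ _).mp h3 with g3 | g3 | g3
        · exact t3 a b c g1 g2 g3
        · exact k3 c a b g3 h1 h2
        · exact k3 a c b g3 h2.symm h1.symm
      · exact k3 b c a g2 h3 h1
      · exact k3 c b a g2 h1.symm h3.symm
    · exact k3 a b c g1 h2 h3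
    · exact k3 b a c g1 h3.symm h2.symm
  · intro a b c d h1 h2 h3 h4
    rcases (hH _ _).mp h1 with g1 | g1 | g1
    · rcases (hH _ _).mp h2 with g2 | g2 | g2
      · rcases (hH _ _).mp h3 with g3 | g3 | g3
        · rcases (hH _ _).mp h4 with g4 | g4 | g4
          · exact t4 a b c d g1 g2 g3 g4
          · rcases k4 d a b c g4 h1 h2 h3 with h | h
            · exact Or.inr h.symm
            · exact Or.inl h
          · exact k4 a d c b g4 h3.symm h2.symm h1.symm |>.imp id Eq.symm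
        · exact k4 c d a b g3 h4 h1 h2 |>.imp Eq.symm Eq.symm
        · rcases k4 d c b a g3 h2.symm h1.symm h4.symm with h | h
          · exact Or.inr h.symm
          · exact Or.inl h.symm
      · rcases k4 b c d a g2 h3 h4 h1 with h | h
        · exact Or.inr h
        · exact Or.inl h.symm
      · exact k4 c b a d g2 h1.symm h4.symm h3.symm |>.imp Eq.symm id
    · exact k4 a b c d g1 h2 h3 h4
    · rcases k4 b a d c g1 h4.symm h3.symm h2.symm with h | h
      · exact Or.inr h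
      · exact Or.inl h

/-- `x` has a neighbour in `S` -/
def Port (G : SimpleGraph V) (S : Finset V) (x : V) : Prop := ∃ s ∈ S, G.Adj x s

/-- `x` and `y` have a common neighbour in `S` -/
def Share (G : SimpleGraph V) (S : Finset V) (x y : V) : Prop := ∃ s ∈ S, G.Adj x s ∧ G.Adj y s

/-- `S` separates `C` from `D` in a graph of girth at least five -/
structure Cut (G : SimpleGraph V) (S C D : Finset V) : Prop where
  t3 : NoT G
  t4 : NoQ G
  cov : ∀ v, v ∈ S ∨ v ∈ C ∨ v ∈ D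
  sc : ∀ v ∈ C, v ∉ S
  sd : ∀ v ∈ D, v ∉ S
  cd : ∀ v ∈ C, v ∉ D
  noe : ∀ a ∈ C, ∀ b ∈ D, ¬ G.Adj a b

theorem Cut.symm {G : SimpleGraph V} {S C D : Finset V} (h : Cut G S C D) : Cut G S D C :=
  ⟨h.t3, h.t4, fun v => (h.cov v).imp id Or.symm, h.sd, h.sc, fun v hv hv' => h.cd v hv' hv,
    fun a ha b hb hab => h.noe b hb a ha hab.symm⟩

theorem Cut.nb {G : SimpleGraph V} {S C D : Finset V} (h : Cut G S C D) {v w : V} (hv : v ∈ C)
    (hp : ¬ Port G S v) (hvw : G.Adj v w) : w ∈ C := by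
  rcases h.cov w with h1 | h1 | h1
  · exact (hp ⟨w, h1, hvw⟩).elim
  · exact h1
  · exact (h.noe v hv w h1 hvw).elim

/-- `a` is a used neighbour of `c` or a child of one -/
def Tch (G : SimpleGraph V) (c : V) (U : Finset V) (a : V) : Prop :=
  a ∈ U ∨ (a ≠ c ∧ ∃ u ∈ U, G.Adj u a)

/-- state of the surgery: `U`, `U'` used neighbours of `c`, `d`; `P`, `P'` vertices that miss
one edge -/
structure St (G : SimpleGraph V) (C D : Finset V) (c d : V) (k : ℕ) (W : Finset V)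
    (H : SimpleGraph V) (U U' P P' : Finset V) : Prop where
  t3 : NoT H
  t4 : NoQ H
  sub : ∀ a b, H.Adj a b → G.Adj a b ∨ (a ∈ C ∧ b ∈ D) ∨ (a ∈ D ∧ b ∈ C)
  keep : ∀ a b, G.Adj a b → a ∉ U → a ∉ U' → b ∉ U → b ∉ U' → H.Adj a b
  crs : ∀ a ∈ C, ∀ b ∈ D, H.Adj a b →
    (a = c ∧ b = d) ∨ ((a ∈ U ∨ b ∈ U') ∧ Tch G c U a ∧ Tch G d U' b)
  uc : ∀ u ∈ U, G.Adj c u
  ud : ∀ u ∈ U', G.Adj d u
  wU : ∀ v, v ∉ W → v ∈ U ∨ v ∈ U'
  hW : ∀ a b, H.Adj a b → a ∈ W
  deg : ∀ v ∈ W, v ∉ P → v ∉ P' → (H.neighborSet v).ncard = k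
  deg1 : ∀ v, v ∈ P ∨ v ∈ P' → (H.neighborSet v).ncard + 1 = k
  pc : ∀ x ∈ P, x ∈ C ∧ x ≠ c ∧ (∃ u ∈ U, G.Adj u x) ∧ (∀ u ∈ U, ¬ H.Adj u x) ∧
    ∀ y ∈ D, ¬ H.Adj x y
  pd : ∀ x ∈ P', x ∈ D ∧ x ≠ d ∧ (∃ u ∈ U', G.Adj u x) ∧ (∀ u ∈ U', ¬ H.Adj u x) ∧
    ∀ y ∈ C, ¬ H.Adj x y

theorem St.symm {G : SimpleGraph V} {C D : Finset V} {c d : V} {k : ℕ} {W : Finset V}
    {H : SimpleGraph V} {U U' P P' : Finset V} (h : St G C D c d k W H U U' P P') :
    St G D C d c k W H U' U P' P := by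
  refine ⟨h.t3, h.t4, fun a b hab => (h.sub a b hab).imp id Or.symm,
    fun a b hab h1 h2 h3 h4 => h.keep a b hab h2 h1 h4 h3, fun a ha b hb hab => ?_, h.ud, h.uc,
    fun v hv => (h.wU v hv).symm, h.hW, fun v hv h1 h2 => h.deg v hv h2 h1,
    fun v hv => h.deg1 v hv.symm, h.pd, h.pc⟩
  rcases h.crs b hb a ha hab.symm with h1 | h1
  · exact Or.inl h1.symm
  · exact Or.inr ⟨h1.1.symm, h1.2.2, h1.2.1⟩

/-- a pending vertex only has old edges -/
theorem St.pnb {G : SimpleGraph V} {S C D : Finset V} {c d : V} {k : ℕ} {W : Finset V}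
    {H : SimpleGraph V} {U U' P P' : Finset V} (hc : Cut G S C D)
    (h : St G C D c d k W H U U' P P') {x t : V} (hx : x ∈ P) (hxt : H.Adj x t) : G.Adj x t := by
  obtain ⟨h1, -, -, -, h5⟩ := h.pc x hx
  rcases h.sub x t hxt with h2 | h2 | h2
  · exact h2
  · exact (h5 t h2.2 hxt).elim
  · exact (hc.cd x h1 h2.1).elim

theorem St.pnc {G : SimpleGraph V} {S C D : Finset V} {c d : V} {k : ℕ} {W : Finset V}
    {H : SimpleGraph V} {U U' P P' : Finset V} (hc : Cut G S C D)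
    (h : St G C D c d k W H U U' P P') {x : V} (hx : x ∈ P) : ¬ G.Adj c x := by
  obtain ⟨-, -, ⟨u, hu, hux⟩, -, -⟩ := h.pc x hx
  exact fun hcx => hc.t3 c u x (h.uc u hu) hux hcx.symm

theorem St.pW {G : SimpleGraph V} {S C D : Finset V} {c d : V} {k : ℕ} {W : Finset V}
    {H : SimpleGraph V} {U U' P P' : Finset V} (hc : Cut G S C D) (hd : d ∈ D)
    (hdp : ¬ Port G S d) (h : St G C D c d k W H U U' P P') {x : V} (hx : x ∈ P) : x ∈ W := by
  by_contra hw
  rcases h.wU x hw with h1 | h1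
  · exact h.pnc hc hx (h.uc x h1)
  · exact hc.cd x (h.pc x hx).1 (hc.symm.nb hd hdp (h.ud x h1))

theorem Tch.mono {G : SimpleGraph V} {c : V} {U U1 : Finset V} {a : V} (h : Tch G c U a)
    (hU : ∀ u ∈ U, u ∈ U1) : Tch G c U1 a :=
  h.imp (hU a) fun ⟨h1, u, hu, h2⟩ => ⟨h1, u, hU u hu, h2⟩

/-- One exchange: an unused neighbour `v` of `d` adopts the siblings `B` and releases `R`. -/
theorem St.step [Finite V] [DecidableEq V] {G : SimpleGraph V} {S C D : Finset V} {c d : V}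
    {k : ℕ} {W : Finset V} {H : SimpleGraph V} {U U' P P' : Finset V} (hc : Cut G S C D)
    (hcC : c ∈ C) (hcp : ¬ Port G S c) (hdD : d ∈ D) (hdp : ¬ Port G S d)
    (h : St G C D c d k W H U U' P P') {B R : Finset V} {u v : V} (hu : u ∈ U)
    (hB : ∀ x ∈ B, x ∈ P ∧ G.Adj u x) (hv : G.Adj d v) (hvp : ¬ Port G S v) (hvU : v ∉ U')
    (hR : ∀ y ∈ R, G.Adj v y ∧ y ≠ d) (hcard : R.card = B.card)
    (hbl : ∀ y, G.Adj v y → ∀ x ∈ B, Share G S x y → y ∈ R) :
    (∀ y ∈ R, y ∉ P') ∧ ∃ H', St G C D c d k W H' U (insert v U') (P \ B) (P' ∪ R) := by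
  have vD : v ∈ D := hc.symm.nb hdD hdp hv
  have UC : ∀ a ∈ U, a ∈ C := fun a ha => hc.nb hcC hcp (h.uc a ha)
  have UD : ∀ a ∈ U', a ∈ D := fun a ha => hc.symm.nb hdD hdp (h.ud a ha)
  have nD : ∀ y, G.Adj v y → y ∈ D := fun y hy => hc.symm.nb vD hvp hy
  have nU : ∀ y, G.Adj v y → y ∉ U' := fun y hy hyU => hc.t3 d v y hv hy (h.ud y hyU).symm
  have vT : ¬ Tch G d U' v := by
    rintro (h1 | ⟨-, w, hw, h1⟩)
    · exact hvU h1
    · exact nU w h1.symm hw
  have nT : ∀ y, G.Adj v y → ¬ Tch G d U' y := by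
    rintro y hy (h1 | ⟨h0, w, hw, h1⟩)
    · exact nU y hy h1
    · have hne : v ≠ w := fun e => hvU (e ▸ hw)
      exact h0 (hc.t4.uniq hne hy.symm h1.symm hv (h.ud w hw))
  have vnb : ∀ y, H.Adj v y ↔ G.Adj v y := by
    intro y
    constructor
    · intro hy
      rcases h.sub v y hy with h1 | h1 | h1
      · exact h1
      · exact (hc.cd v h1.1 vD).elim
      · rcases h.crs y h1.2 v vD hy.symm with h2 | h2
        · exact (hv.ne h2.2.symm).elim
        · exact (vT h2.2.2).elim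
    · intro hy
      exact h.keep v y hy (fun h1 => hc.cd v (UC v h1) vD) hvU
        (fun h1 => hc.cd y (UC y h1) (nD y hy)) (nU y hy)
  have BC : ∀ x ∈ B, x ∈ C := fun x hx => (h.pc x (hB x hx).1).1
  have RD : ∀ y ∈ R, y ∈ D := fun y hy => nD y (hR y hy).1
  have RP : ∀ y ∈ R, y ∉ P' := fun y hy hp =>
    nT y (hR y hy).1 (Or.inr ⟨(hR y hy).2, (h.pd y hp).2.2.1⟩)
  have vP' : v ∉ P' := fun hp => vT (Or.inr ⟨(h.pd v hp).2.1, (h.pd v hp).2.2.1⟩)
  have vP : v ∉ P := fun hp => hc.cd v (h.pc v hp).1 vD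
  have vW : v ∈ W := by
    by_contra hw
    rcases h.wU v hw with h1 | h1
    · exact hc.cd v (UC v h1) vD
    · exact hvU h1
  refine ⟨RP, ?_⟩
  let Γ : SimpleGraph V :=
    { Adj := fun a b => H.Adj a b ∧ ¬ (a = v ∧ b ∈ R) ∧ ¬ (b = v ∧ a ∈ R)
      symm := ⟨fun _ _ h => ⟨h.1.symm, h.2.2, h.2.1⟩⟩
      loopless := ⟨fun x hx => H.loopless.1 x hx.1⟩ }
  let Nw : V → V → Prop := fun x y => x ∈ B ∧ y = v
  let H' : SimpleGraph V :=
    { Adj := fun a b => Γ.Adj a b ∨ Nw a b ∨ Nw b a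
      symm := ⟨fun _ _ h => h.imp (fun h => h.symm) Or.symm⟩
      loopless := ⟨fun x hx => by
        rcases hx with hx | hx | hx
        · exact Γ.loopless.1 x hx
        · exact hc.cd x (BC x hx.1) (hx.2 ▸ vD)
        · exact hc.cd x (BC x hx.1) (hx.2 ▸ vD)⟩ }
  have hH : ∀ a b, H'.Adj a b ↔
      (H.Adj a b ∧ ¬ (a = v ∧ b ∈ R) ∧ ¬ (b = v ∧ a ∈ R)) ∨ (a ∈ B ∧ b = v) ∨ (b ∈ B ∧ a = v) :=
    fun a b => Iff.rfl
  have xG : ∀ x ∈ B, ∀ t, H.Adj x t → G.Adj x t := fun x hx t ht => h.pnb hc (hB x hx).1 ht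
  have ok : NoT H' ∧ NoQ H' := by
    refine add_edges (Γ := Γ) (Nw := Nw) (P := fun x => x ∈ C) (fun a b => Iff.rfl)
      (h.t3.anti fun a b hab => hab.1) (h.t4.anti fun a b hab => hab.1) ?_ ?_ ?_ ?_ ?_ ?_ ?_ ?_
    · rintro x y ⟨hx, rfl⟩
      exact ⟨BC x hx, fun h1 => hc.cd _ h1 vD⟩
    · rintro x y y' ⟨-, rfl⟩ ⟨-, rfl⟩
      rfl
    · rintro x y t ⟨hx, rfl⟩ h1 h2
      exact (h.pc x (hB x hx).1).2.2.2.2 t (nD t ((vnb t).mp h2.1.symm)) h1.1
    · rintro x y t t' ⟨hx, rfl⟩ h1 h2 h3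
      have a3 := (vnb t').mp h3.1.symm
      have a1 := xG x hx t h1.1
      have tD : t ∉ D := fun ht => hc.noe x (BC x hx) t ht a1
      rcases hc.cov t with ht | ht | ht
      · rcases h.sub t t' h2.1 with h4 | h4 | h4
        · exact h3.2.2 ⟨rfl, hbl t' a3 x hx ⟨t, ht, a1, h4.symm⟩⟩
        · exact hc.sc t h4.1 ht
        · exact tD h4.1
      · rcases h.crs t ht t' (nD t' a3) h2.1 with h4 | h4
        · exact h.pnc hc (hB x hx).1 (h4.1 ▸ a1.symm)
        · exact nT t' a3 h4.2.2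
      · exact tD ht
    · rintro x x' y ⟨hx, -⟩ ⟨hx', -⟩ h1
      exact hc.t3 u x x' (hB x hx).2 (xG x hx x' h1.1) (hB x' hx').2.symm
    · rintro x x' y t ⟨hx, -⟩ ⟨hx', -⟩ h1 h2
      by_contra hne
      have := hc.t4.uniq hne (xG x hx t h1.1).symm (xG x' hx' t h2.1.symm).symm
        (hB x hx).2 (hB x' hx').2
      subst this
      exact (h.pc x (hB x hx).1).2.2.2.1 t hu h1.1.symm
    · rintro x x' y y' ⟨-, rfl⟩ ⟨-, rfl⟩ - h2
      exact h2.1.ne rfl
    · rintro x x' y y' ⟨hx, -⟩ ⟨-, rfl⟩ h1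
      exact (h.pc x (hB x hx).1).2.2.2.2 _ vD h1.1
  have same : ∀ w, w ≠ v → w ∉ B → w ∉ R → H'.neighborSet w = H.neighborSet w := by
    intro w h1 h2 h3
    ext y
    simp only [mem_neighborSet, hH]
    tauto
  refine ⟨H', ok.1, ok.2, ?_, ?_, ?_, h.uc, ?_, ?_, ?_, ?_, ?_, ?_, ?_⟩
  · intro a b hab
    rcases (hH a b).mp hab with h1 | h1 | h1
    · exact h.sub a b h1.1
    · exact Or.inr (Or.inl ⟨BC a h1.1, h1.2 ▸ vD⟩)
    · exact Or.inr (Or.inr ⟨h1.2 ▸ vD, BC b h1.1⟩)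
  · intro a b hab h1 h2 h3 h4
    rw [mem_insert, not_or] at h2 h4
    exact (hH a b).mpr (Or.inl ⟨h.keep a b hab h1 h2.2 h3 h4.2, fun e => h2.1 e.1,
      fun e => h4.1 e.1⟩)
  · intro a ha b hb hab
    rcases (hH a b).mp hab with h1 | h1 | h1
    · rcases h.crs a ha b hb h1.1 with h2 | h2
      · exact Or.inl h2
      · exact Or.inr ⟨h2.1.imp id mem_insert_of_mem, h2.2.1,
          h2.2.2.mono fun w hw => mem_insert_of_mem hw⟩
    · obtain ⟨h1, rfl⟩ := h1
      exact Or.inr ⟨Or.inr (mem_insert_self _ _),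
        Or.inr ⟨(h.pc a (hB a h1).1).2.1, u, hu, (hB a h1).2⟩, Or.inl (mem_insert_self _ _)⟩
    · exact (hc.cd b (BC b h1.1) hb).elim
  · intro w hw
    rcases mem_insert.mp hw with rfl | hw
    · exact hv
    · exact h.ud w hw
  · intro w hw
    exact (h.wU w hw).imp id mem_insert_of_mem
  · intro a b hab
    rcases (hH a b).mp hab with h1 | h1 | h1
    · exact h.hW a b h1.1
    · exact h.pW hc hdD hdp (hB a h1.1).1
    · exact h1.2 ▸ vW
  · intro w hw h1 h2
    rw [mem_union, not_or] at h2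
    by_cases e : w = v
    · subst e
      have e1 : H'.neighborSet w = (H.neighborSet w \ (R : Set V)) ∪ (B : Set V) := by
        ext y
        simp only [mem_neighborSet, hH, Set.mem_union, Set.mem_sdiff, mem_coe]
        have : w ∉ B := fun hb => vP (hB w hb).1
        tauto
      have e2 : (R : Set V) ⊆ H.neighborSet w := fun y hy => (vnb y).mpr (hR y hy).1
      have e3 : Disjoint (H.neighborSet w \ (R : Set V)) (B : Set V) := by
        rw [Set.disjoint_left]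
        intro y hy hyB
        exact hc.cd y (BC y hyB) (nD y ((vnb y).mp hy.1))
      rw [e1, Set.ncard_union_eq e3, Set.ncard_coe_finset, ← hcard, ← Set.ncard_coe_finset R,
        Set.ncard_sdiff_add_ncard_of_subset e2]
      exact h.deg w vW vP vP'
    · by_cases hb : w ∈ B
      · have e1 : H'.neighborSet w = insert v (H.neighborSet w) := by
          ext y
          simp only [mem_neighborSet, hH, Set.mem_insert_iff]
          have := h2.2
          tauto
        have e2 : v ∉ H.neighborSet w := fun hh => (h.pc w (hB w hb).1).2.2.2.2 v vD hh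
        rw [e1, Set.ncard_insert_of_notMem e2]
        exact h.deg1 w (Or.inl (hB w hb).1)
      · rw [same w e hb h2.2]
        exact h.deg w hw (fun hp => h1 (mem_sdiff.mpr ⟨hp, hb⟩)) h2.1
  · intro w hw
    by_cases hr : w ∈ R
    · have e0 : w ≠ v := (hR w hr).1.ne'
      have hb : w ∉ B := fun hb => hc.cd w (BC w hb) (RD w hr)
      have e1 : H'.neighborSet w = H.neighborSet w \ {v} := by
        ext y
        simp only [mem_neighborSet, hH, Set.mem_sdiff, Set.mem_singleton_iff]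
        tauto
      have e2 : v ∈ H.neighborSet w := ((vnb w).mpr (hR w hr).1).symm
      rw [e1, Set.ncard_sdiff_singleton_add_one e2]
      exact h.deg w (h.hW w v e2) (fun hp => hc.cd w (h.pc w hp).1 (RD w hr)) (RP w hr)
    · have hp : w ∈ P ∨ w ∈ P' := by
        rcases hw with hw | hw
        · exact Or.inl (mem_sdiff.mp hw).1
        · exact Or.inr ((mem_union.mp hw).resolve_right hr)
      have hb : w ∉ B := by
        rcases hw with hw | hw
        · exact (mem_sdiff.mp hw).2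
        · exact fun hb => hc.cd w (BC w hb) (h.pd w ((mem_union.mp hw).resolve_right hr)).1
      have e0 : w ≠ v := by
        rintro rfl
        exact hp.elim vP vP'
      rw [same w e0 hb hr]
      exact h.deg1 w hp
  · intro x hx
    obtain ⟨hp, hb⟩ := mem_sdiff.mp hx
    obtain ⟨a1, a2, a3, a4, a5⟩ := h.pc x hp
    refine ⟨a1, a2, a3, fun w hw hwx => ?_, fun y hy hxy => ?_⟩
    · rcases (hH w x).mp hwx with h1 | h1 | h1
      · exact a4 w hw h1.1
      · exact vP (h1.2 ▸ hp)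
      · exact hb h1.1
    · rcases (hH x y).mp hxy with h1 | h1 | h1
      · exact a5 y hy h1.1
      · exact hb h1.1
      · exact vP (h1.2 ▸ hp)
  · intro x hx
    have xD : x ∈ D := by
      rcases mem_union.mp hx with hx | hx
      · exact (h.pd x hx).1
      · exact RD x hx
    have xB : x ∉ B := fun hb => hc.cd x (BC x hb) xD
    have xv : x ≠ v := by
      rintro rfl
      rcases mem_union.mp hx with hx | hx
      · exact vP' hx
      · exact (hR x hx).1.ne rfl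
    have key : ∀ y, H'.Adj x y → H.Adj x y ∧ ¬ (y = v ∧ x ∈ R) := by
      intro y hy
      rcases (hH x y).mp hy with h1 | h1 | h1
      · exact ⟨h1.1, h1.2.2⟩
      · exact (xB h1.1).elim
      · exact (xv h1.2).elim
    rcases mem_union.mp hx with hx | hx
    · obtain ⟨a1, a2, ⟨w, hw, a3⟩, a4, a5⟩ := h.pd x hx
      refine ⟨a1, a2, ⟨w, mem_insert_of_mem hw, a3⟩, fun z hz hzx => ?_,
        fun y hy hxy => a5 y hy (key y hxy).1⟩
      rcases mem_insert.mp hz with rfl | hz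
      · exact nT x ((vnb x).mp (key z hzx.symm).1.symm) (Or.inr ⟨a2, w, hw, a3⟩)
      · exact a4 z hz (key z hzx.symm).1.symm
    · have a0 := (hR x hx).1
      have noC : ∀ y ∈ C, ¬ H.Adj x y := by
        intro y hy hxy
        rcases h.crs y hy x xD hxy.symm with h2 | h2
        · exact (hR x hx).2 h2.2
        · exact nT x a0 h2.2.2
      refine ⟨xD, (hR x hx).2, ⟨v, mem_insert_self _ _, a0⟩, fun z hz hzx => ?_,
        fun y hy hxy => noC y hy (key y hxy).1⟩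
      rcases mem_insert.mp hz with rfl | hz
      · exact (key z hzx.symm).2 ⟨rfl, hx⟩
      · rcases h.sub x z (key z hzx.symm).1 with h1 | h1 | h1
        · exact nT x a0 (Or.inr ⟨(hR x hx).2, z, hz, h1.symm⟩)
        · exact hc.cd x h1.1 xD
        · exact hc.cd z h1.2 (UD z hz)

/-- Last step: all pending vertices are far from `S`; join them by a matching. -/
theorem St.final [Finite V] {G : SimpleGraph V} {S C D : Finset V} {c d : V}
    {k : ℕ} {W : Finset V} {H : SimpleGraph V} {U U' P P' : Finset V} (hc : Cut G S C D)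
    (hcC : c ∈ C) (hcp : ¬ Port G S c) (hdD : d ∈ D) (hdp : ¬ Port G S d)
    (h : St G C D c d k W H U U' P P') (hp : ∀ x ∈ P, ¬ Port G S x) (hp' : ∀ x ∈ P', ¬ Port G S x)
    (π : V → V) (hπ : ∀ x ∈ P, π x ∈ P') (hinj : ∀ x ∈ P, ∀ x' ∈ P, π x = π x' → x = x')
    (hsur : ∀ y ∈ P', ∃ x ∈ P, π x = y)
    (hfree : ∀ x ∈ P, ∀ x' ∈ P, G.Adj x x' → ¬ G.Adj (π x) (π x')) :
    ∃ H', RegOn H' W k ∧ GirthGe H' 5 := by
  let Nw : V → V → Prop := fun x y => x ∈ P ∧ y = π x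
  have side : ∀ x y, Nw x y → x ∈ C ∧ y ∈ D := fun x y hxy =>
    ⟨(h.pc x hxy.1).1, hxy.2 ▸ (h.pd _ (hπ x hxy.1)).1⟩
  let H' : SimpleGraph V :=
    { Adj := fun a b => H.Adj a b ∨ Nw a b ∨ Nw b a
      symm := ⟨fun _ _ h => h.imp (fun h => h.symm) Or.symm⟩
      loopless := ⟨fun x hx => by
        rcases hx with hx | hx | hx
        · exact H.loopless.1 x hx
        · exact hc.cd x (side _ _ hx).1 (side _ _ hx).2
        · exact hc.cd x (side _ _ hx).1 (side _ _ hx).2⟩ }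
  have hH : ∀ a b, H'.Adj a b ↔ H.Adj a b ∨ (a ∈ P ∧ b = π a) ∨ (b ∈ P ∧ a = π b) :=
    fun a b => Iff.rfl
  have nC : ∀ x ∈ P, ∀ t, H.Adj x t → t ∈ C := fun x hx t ht =>
    hc.nb (h.pc x hx).1 (hp x hx) (h.pnb hc hx ht)
  have nD : ∀ x ∈ P', ∀ t, H.Adj x t → t ∈ D := fun x hx t ht =>
    hc.symm.nb (h.pd x hx).1 (hp' x hx) (h.symm.pnb hc.symm hx ht)
  have ok : NoT H' ∧ NoQ H' := by
    refine add_edges (Γ := H) (Nw := Nw) (P := fun x => x ∈ C) (fun a b => Iff.rfl)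
      h.t3 h.t4 ?_ ?_ ?_ ?_ ?_ ?_ ?_ ?_
    · intro x y hxy
      exact ⟨(side x y hxy).1, fun h1 => hc.cd _ h1 (side x y hxy).2⟩
    · rintro x y y' ⟨-, rfl⟩ ⟨-, rfl⟩
      rfl
    · rintro x y t ⟨hx, rfl⟩ h1 h2
      exact hc.cd t (nC x hx t h1) (nD _ (hπ x hx) t h2.symm)
    · rintro x y t t' ⟨hx, rfl⟩ h1 h2 h3
      rcases h.crs t (nC x hx t h1) t' (nD _ (hπ x hx) t' h3.symm) h2 with h4 | ⟨h4 | h4, -⟩
      · exact h.pnc hc hx (h4.1 ▸ (h.pnb hc hx h1).symm)
      · exact (h.pc x hx).2.2.2.1 t h4 h1.symm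
      · exact (h.pd _ (hπ x hx)).2.2.2.1 t' h4 h3
    · rintro x x' y ⟨hx, rfl⟩ ⟨hx', e⟩ h1
      exact h1.ne (hinj x hx x' hx' e)
    · rintro x x' y t ⟨hx, rfl⟩ ⟨hx', e⟩ - -
      exact hinj x hx x' hx' e
    · rintro x x' y y' ⟨hx, rfl⟩ ⟨hx', rfl⟩ h1 h2
      exact hfree x hx x' hx' (h.pnb hc hx h1) (h.symm.pnb hc.symm (hπ x hx) h2)
    · rintro x x' y y' ⟨hx, -⟩ hy h1
      exact (h.pc x hx).2.2.2.2 _ (side _ _ hy).2 h1
  refine ⟨H', ⟨fun a b hab => ?_, fun w hw => ?_⟩, girth_of ok.1 ok.2⟩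
  · rcases (hH a b).mp hab with h1 | h1 | h1
    · exact h.hW a b h1
    · exact h.pW hc hdD hdp h1.1
    · exact h1.2 ▸ h.symm.pW hc.symm hcC hcp (hπ b h1.1)
  · by_cases h1 : w ∈ P
    · have e1 : H'.neighborSet w = insert (π w) (H.neighborSet w) := by
        ext y
        simp only [mem_neighborSet, hH, Set.mem_insert_iff]
        have : ¬ (y ∈ P ∧ w = π y) := fun hh =>
          hc.cd w (h.pc w h1).1 (hh.2 ▸ (h.pd _ (hπ y hh.1)).1)
        tauto
      have e2 : π w ∉ H.neighborSet w := fun hh =>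
        (h.pc w h1).2.2.2.2 _ (h.pd _ (hπ w h1)).1 hh
      rw [e1, Set.ncard_insert_of_notMem e2]
      exact h.deg1 w (Or.inl h1)
    · by_cases h2 : w ∈ P'
      · obtain ⟨x, hx, rfl⟩ := hsur w h2
        have e1 : H'.neighborSet (π x) = insert x (H.neighborSet (π x)) := by
          ext y
          simp only [mem_neighborSet, hH, Set.mem_insert_iff]
          constructor
          · rintro (h3 | h3 | h3)
            · exact Or.inr h3
            · exact (h1 h3.1).elim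
            · exact Or.inl (hinj y h3.1 x hx h3.2.symm)
          · rintro (rfl | h3)
            · exact Or.inr (Or.inr ⟨hx, rfl⟩)
            · exact Or.inl h3
        have e2 : x ∉ H.neighborSet (π x) := fun hh =>
          (h.pd _ h2).2.2.2.2 _ (h.pc x hx).1 hh
        rw [e1, Set.ncard_insert_of_notMem e2]
        exact h.deg1 _ (Or.inr h2)
      · have e1 : H'.neighborSet w = H.neighborSet w := by
          ext y
          simp only [mem_neighborSet, hH]
          have : ¬ (y ∈ P ∧ w = π y) := fun hh => h2 (hh.2 ▸ hπ y hh.1)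
          tauto
        rw [e1]
        exact h.deg w hw h1 h2

/-- First step: delete `c0`, `d0` and join `c` to `d`. -/
theorem St.init [Fintype V] [DecidableEq V] {G : SimpleGraph V} {S C D : Finset V} {c d : V}
    {k : ℕ} (hc : Cut G S C D) (hreg : ∀ v, (G.neighborSet v).ncard = k)
    (hcC : c ∈ C) (hcp : ¬ Port G S c) (hdD : d ∈ D) (hdp : ¬ Port G S d) {c0 d0 : V}
    (h1 : G.Adj c c0) (h1p : ¬ Port G S c0) (h2 : G.Adj d d0) (h2p : ¬ Port G S d0)
    {P P' : Finset V} (hP : ∀ x, x ∈ P ↔ G.Adj c0 x ∧ x ≠ c)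
    (hP' : ∀ x, x ∈ P' ↔ G.Adj d0 x ∧ x ≠ d) :
    ∃ H, St G C D c d k ((univ.erase c0).erase d0) H {c0} {d0} P P' := by
  have c0C : c0 ∈ C := hc.nb hcC hcp h1
  have d0D : d0 ∈ D := hc.symm.nb hdD hdp h2
  let Γ : SimpleGraph V := res G fun x => x ≠ c0 ∧ x ≠ d0
  let Nw : V → V → Prop := fun x y => x = c ∧ y = d
  have hcd : c ≠ d := fun e => hc.cd c hcC (e ▸ hdD)
  let H' : SimpleGraph V :=
    { Adj := fun a b => Γ.Adj a b ∨ Nw a b ∨ Nw b a
      symm := ⟨fun _ _ h => h.imp (fun h => h.symm) Or.symm⟩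
      loopless := ⟨fun x hx => by
        rcases hx with hx | hx | hx
        · exact Γ.loopless.1 x hx
        · exact hcd (hx.1.symm.trans hx.2)
        · exact hcd (hx.1.symm.trans hx.2)⟩ }
  have hH : ∀ a b, H'.Adj a b ↔ (G.Adj a b ∧ (a ≠ c0 ∧ a ≠ d0) ∧ (b ≠ c0 ∧ b ≠ d0)) ∨
      (a = c ∧ b = d) ∨ (b = c ∧ a = d) := fun a b => Iff.rfl
  have ok : NoT H' ∧ NoQ H' := by
    refine add_edges (Γ := Γ) (Nw := Nw) (P := fun x => x ∈ C) (fun a b => Iff.rfl)
      (hc.t3.anti fun a b hab => hab.1) (hc.t4.anti fun a b hab => hab.1) ?_ ?_ ?_ ?_ ?_ ?_ ?_ ?_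
    · rintro x y ⟨rfl, rfl⟩
      exact ⟨hcC, fun h => hc.cd _ h hdD⟩
    · rintro x y y' ⟨-, rfl⟩ ⟨-, rfl⟩
      rfl
    · rintro x y t ⟨rfl, rfl⟩ a1 a2
      exact hc.cd t (hc.nb hcC hcp a1.1) (hc.symm.nb hdD hdp a2.1.symm)
    · rintro x y t t' ⟨rfl, rfl⟩ a1 a2 a3
      exact hc.noe t (hc.nb hcC hcp a1.1) t' (hc.symm.nb hdD hdp a3.1.symm) a2.1
    · rintro x x' y ⟨rfl, -⟩ ⟨rfl, -⟩ a1
      exact a1.1.ne rfl
    · rintro x x' y t ⟨rfl, -⟩ ⟨rfl, -⟩ - -
      rfl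
    · rintro x x' y y' ⟨rfl, -⟩ ⟨rfl, -⟩ a1 -
      exact a1.1.ne rfl
    · rintro x x' y y' ⟨rfl, -⟩ ⟨-, rfl⟩ a1
      exact hc.noe _ hcC _ hdD a1.1
  have cd0 : c ≠ d0 := fun e => hc.cd c hcC (e ▸ d0D)
  have dc0 : d ≠ c0 := fun e => hc.cd c0 c0C (e ▸ hdD)
  have both : ∀ w, G.Adj c0 w → G.Adj d0 w → False := fun w a1 a2 =>
    hc.cd w (hc.nb c0C h1p a1) (hc.symm.nb d0D h2p a2)
  have PC : ∀ x ∈ P, x ∈ C := fun x hx => hc.nb c0C h1p ((hP x).mp hx).1
  have PD : ∀ x ∈ P', x ∈ D := fun x hx => hc.symm.nb d0D h2p ((hP' x).mp hx).1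
  refine ⟨H', ok.1, ok.2, ?_, ?_, ?_, ?_, ?_, ?_, ?_, ?_, ?_, ?_, ?_⟩
  · intro a b hab
    rcases (hH a b).mp hab with h | ⟨rfl, rfl⟩ | ⟨rfl, rfl⟩
    · exact Or.inl h.1
    · exact Or.inr (Or.inl ⟨hcC, hdD⟩)
    · exact Or.inr (Or.inr ⟨hdD, hcC⟩)
  · intro a b hab a1 a2 a3 a4
    rw [mem_singleton] at a1 a2 a3 a4
    exact (hH a b).mpr (Or.inl ⟨hab, ⟨a1, a2⟩, a3, a4⟩)
  · intro a ha b hb hab
    rcases (hH a b).mp hab with h | h | ⟨rfl, rfl⟩
    · exact (hc.noe a ha b hb h.1).elim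
    · exact Or.inl h
    · exact (hc.cd _ hcC hb).elim
  · intro w hw
    exact mem_singleton.mp hw ▸ h1
  · intro w hw
    exact mem_singleton.mp hw ▸ h2
  · intro w hw
    simp only [mem_erase, mem_univ, and_true, mem_singleton] at hw ⊢
    tauto
  · intro a b hab
    simp only [mem_erase, mem_univ, and_true]
    rcases (hH a b).mp hab with h | ⟨rfl, rfl⟩ | ⟨rfl, rfl⟩
    · exact h.2.1.symm
    · exact ⟨cd0, h1.ne⟩
    · exact ⟨h2.ne, dc0⟩
  · intro w hw a1 a2
    simp only [mem_erase, mem_univ, and_true] at hw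
    by_cases e1 : w = c
    · subst e1
      have n1 : ¬ G.Adj w d0 := hc.noe w hcC d0 d0D
      have n2 : ¬ G.Adj w d := hc.noe w hcC d hdD
      have e : H'.neighborSet w = insert d (G.neighborSet w \ {c0}) := by
        ext y
        simp only [mem_neighborSet, hH, Set.mem_insert_iff, Set.mem_sdiff, Set.mem_singleton_iff]
        constructor
        · rintro (h | h | h)
          · exact Or.inr ⟨h.1, h.2.2.1⟩
          · exact Or.inl h.2
          · exact (hcd h.2).elim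
        · rintro (h | h)
          · exact Or.inr (Or.inl ⟨trivial, h⟩)
          · exact Or.inl ⟨h.1, hw.symm, h.2, fun e => n1 (e ▸ h.1)⟩
      have e2 : d ∉ G.neighborSet w \ {c0} := fun hh => n2 hh.1
      rw [e, Set.ncard_insert_of_notMem e2,
        Set.ncard_sdiff_singleton_add_one (show c0 ∈ G.neighborSet w from h1)]
      exact hreg w
    · by_cases e3 : w = d
      · subst e3
        have n1 : ¬ G.Adj w c0 := fun hh => hc.noe c0 c0C w hdD hh.symm
        have n2 : ¬ G.Adj w c := fun hh => hc.noe c hcC w hdD hh.symm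
        have e : H'.neighborSet w = insert c (G.neighborSet w \ {d0}) := by
          ext y
          simp only [mem_neighborSet, hH, Set.mem_insert_iff, Set.mem_sdiff,
            Set.mem_singleton_iff]
          constructor
          · rintro (h | h | h)
            · exact Or.inr ⟨h.1, h.2.2.2⟩
            · exact (e1 h.1).elim
            · exact Or.inl h.1
          · rintro (h | h)
            · exact Or.inr (Or.inr ⟨h, trivial⟩)
            · exact Or.inl ⟨h.1, hw.symm, fun e => n1 (e ▸ h.1), h.2⟩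
        have e2 : c ∉ G.neighborSet w \ {d0} := fun hh => n2 hh.1
        rw [e, Set.ncard_insert_of_notMem e2,
          Set.ncard_sdiff_singleton_add_one (show d0 ∈ G.neighborSet w from h2)]
        exact hreg w
      · have n1 : ¬ G.Adj w c0 := fun hh => a1 ((hP w).mpr ⟨hh.symm, e1⟩)
        have n2 : ¬ G.Adj w d0 := fun hh => a2 ((hP' w).mpr ⟨hh.symm, e3⟩)
        have e : H'.neighborSet w = G.neighborSet w := by
          ext y
          simp only [mem_neighborSet, hH]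
          constructor
          · rintro (h | h | h)
            · exact h.1
            · exact (e1 h.1).elim
            · exact (e3 h.2).elim
          · intro h
            exact Or.inl ⟨h, hw.symm, fun e => n1 (e ▸ h), fun e => n2 (e ▸ h)⟩
        rw [e]
        exact hreg w
  · rintro w (hw | hw)
    · obtain ⟨a1, a2⟩ := (hP w).mp hw
      have wD : w ∉ D := hc.cd w (PC w hw)
      have e : H'.neighborSet w = G.neighborSet w \ {c0} := by
        ext y
        simp only [mem_neighborSet, hH, Set.mem_sdiff, Set.mem_singleton_iff]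
        constructor
        · rintro (h | h | h)
          · exact ⟨h.1, h.2.2.1⟩
          · exact (a2 h.1).elim
          · exact (wD (h.2 ▸ hdD)).elim
        · intro h
          exact Or.inl ⟨h.1, ⟨a1.ne', fun e => wD (e ▸ d0D)⟩, h.2,
            fun e => both w a1 (e ▸ h.1.symm)⟩
      rw [e, Set.ncard_sdiff_singleton_add_one (show c0 ∈ G.neighborSet w from a1.symm)]
      exact hreg w
    · obtain ⟨a1, a2⟩ := (hP' w).mp hw
      have wC : w ∉ C := fun hh => hc.cd w hh (PD w hw)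
      have e : H'.neighborSet w = G.neighborSet w \ {d0} := by
        ext y
        simp only [mem_neighborSet, hH, Set.mem_sdiff, Set.mem_singleton_iff]
        constructor
        · rintro (h | h | h)
          · exact ⟨h.1, h.2.2.2⟩
          · exact (wC (h.1 ▸ hcC)).elim
          · exact (a2 h.2).elim
        · intro h
          exact Or.inl ⟨h.1, ⟨fun e => wC (e ▸ c0C), a1.ne'⟩,
            fun e => both w (e ▸ h.1.symm) a1, h.2⟩
      rw [e, Set.ncard_sdiff_singleton_add_one (show d0 ∈ G.neighborSet w from a1.symm)]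
      exact hreg w
  · intro x hx
    obtain ⟨a1, a2⟩ := (hP x).mp hx
    refine ⟨PC x hx, a2, ⟨c0, mem_singleton_self _, a1⟩, fun w hw hwx => ?_, fun y hy hxy => ?_⟩
    · rw [mem_singleton] at hw
      subst hw
      rcases (hH _ _).mp hwx with h | h | h
      · exact h.2.1.1 rfl
      · exact h1.ne h.1.symm
      · exact a2 h.1
    · rcases (hH _ _).mp hxy with h | h | h
      · exact hc.noe x (PC x hx) y hy h.1
      · exact a2 h.1
      · exact hc.cd x (PC x hx) (h.2 ▸ hdD)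
  · intro x hx
    obtain ⟨a1, a2⟩ := (hP' x).mp hx
    refine ⟨PD x hx, a2, ⟨d0, mem_singleton_self _, a1⟩, fun w hw hwx => ?_, fun y hy hxy => ?_⟩
    · rw [mem_singleton] at hw
      subst hw
      rcases (hH _ _).mp hwx with h | h | h
      · exact h.2.1.2 rfl
      · exact a2 h.2
      · exact h2.ne h.2.symm
    · rcases (hH _ _).mp hxy with h | h | h
      · exact hc.noe y hy x (PD x hx) h.1.symm
      · exact hc.cd x (h.1 ▸ hcC) (PD x hx)
      · exact a2 h.2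

theorem norm1 [DecidableEq V] (X S : Finset V) (e : V → V → ℝ) (k : ℝ) (he : ∀ v s, 0 ≤ e v s)
    (h1 : ∀ s ∈ S, ∑ v ∈ X, e v s * e v s ≤ k)
    (h2 : ∀ s ∈ S, ∀ t ∈ S, s ≠ t → ∑ v ∈ X, e v s * e v t ≤ 1) (a : V → ℝ) :
    ∑ v ∈ X, (∑ s ∈ S, e v s * a s) ^ 2 ≤ (k + S.card) * ∑ s ∈ S, a s ^ 2 := by
  have g0 : ∀ s t, 0 ≤ ∑ v ∈ X, e v s * e v t := fun s t =>
    sum_nonneg fun v _ => mul_nonneg (he v s) (he v t)
  have row : ∀ s ∈ S, ∑ t ∈ S, ∑ v ∈ X, e v s * e v t ≤ k + S.card := by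
    intro s hs
    have : ∑ t ∈ S, ∑ v ∈ X, e v s * e v t ≤ ∑ t ∈ S, ((if t = s then k else 0) + 1) := by
      refine sum_le_sum fun t ht => ?_
      split_ifs with h
      · subst h
        linarith [h1 t ht]
      · linarith [h2 s hs t ht (Ne.symm h)]
    simpa [sum_add_distrib, hs] using this
  have e1 : ∑ v ∈ X, (∑ s ∈ S, e v s * a s) ^ 2 =
      ∑ s ∈ S, ∑ t ∈ S, a s * a t * ∑ v ∈ X, e v s * e v t := by
    have e0 : ∀ v, (∑ s ∈ S, e v s * a s) ^ 2 =
        ∑ s ∈ S, ∑ t ∈ S, a s * a t * (e v s * e v t) := by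
      intro v
      rw [sq, sum_mul_sum]
      exact sum_congr rfl fun s _ => sum_congr rfl fun t _ => by ring
    simp only [e0, mul_sum]
    rw [sum_comm]
    exact sum_congr rfl fun s _ => sum_comm
  have e2 : ∑ s ∈ S, ∑ t ∈ S, a s * a t * ∑ v ∈ X, e v s * e v t ≤
      ∑ s ∈ S, ∑ t ∈ S, (a s ^ 2 / 2 * ∑ v ∈ X, e v s * e v t +
        a t ^ 2 / 2 * ∑ v ∈ X, e v t * e v s) := by
    refine sum_le_sum fun s _ => sum_le_sum fun t _ => ?_
    have h3 : ∑ v ∈ X, e v t * e v s = ∑ v ∈ X, e v s * e v t :=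
      sum_congr rfl fun v _ => mul_comm _ _
    rw [h3]
    nlinarith [mul_nonneg (sq_nonneg (a s - a t)) (g0 s t)]
  have e3 : ∑ s ∈ S, ∑ t ∈ S, a s ^ 2 / 2 * ∑ v ∈ X, e v s * e v t ≤
      (k + S.card) / 2 * ∑ s ∈ S, a s ^ 2 := by
    rw [mul_sum]
    refine sum_le_sum fun s hs => ?_
    rw [← mul_sum]
    nlinarith [mul_le_mul_of_nonneg_left (row s hs) (sq_nonneg (a s))]
  rw [e1]
  refine e2.trans ?_
  simp only [sum_add_distrib]
  rw [sum_comm (s := S) (t := S) (f := fun s t => a t ^ 2 / 2 * ∑ v ∈ X, e v t * e v s)]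
  linarith

theorem norm2 [DecidableEq V] (X S : Finset V) (e : V → V → ℝ) (k : ℝ) (hk : 0 ≤ k)
    (he : ∀ v s, 0 ≤ e v s) (h1 : ∀ s ∈ S, ∑ v ∈ X, e v s * e v s ≤ k)
    (h2 : ∀ s ∈ S, ∀ t ∈ S, s ≠ t → ∑ v ∈ X, e v s * e v t ≤ 1) (y : V → ℝ) :
    ∑ s ∈ S, (∑ v ∈ X, e v s * y v) ^ 2 ≤ (k + S.card) * ∑ v ∈ X, y v ^ 2 := by
  set a : V → ℝ := fun s => ∑ v ∈ X, e v s * y v with ha
  have e1 : ∑ s ∈ S, a s ^ 2 = ∑ v ∈ X, y v * ∑ s ∈ S, e v s * a s := by
    simp only [mul_sum]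
    rw [sum_comm]
    refine sum_congr rfl fun s _ => ?_
    rw [sq]
    nth_rewrite 1 [ha]
    simp only [sum_mul]
    exact sum_congr rfl fun v _ => by ring
  have e2 := sum_mul_sq_le_sq_mul_sq X y fun v => ∑ s ∈ S, e v s * a s
  have e3 := norm1 X S e k he h1 h2 a
  rw [← e1] at e2
  have A0 : 0 ≤ ∑ s ∈ S, a s ^ 2 := sum_nonneg fun s _ => sq_nonneg _
  have Y0 : 0 ≤ ∑ v ∈ X, y v ^ 2 := sum_nonneg fun s _ => sq_nonneg _
  have K0 : 0 ≤ k + S.card := by positivity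
  show ∑ s ∈ S, a s ^ 2 ≤ _
  rcases A0.eq_or_lt with h | h
  · rw [← h]
    positivity
  · have e4 := e2.trans (mul_le_mul_of_nonneg_left e3 Y0)
    by_contra hlt
    push Not at hlt
    nlinarith [mul_lt_mul_of_pos_right hlt h]

theorem norm3 [DecidableEq V] (C D S : Finset V) (hCD : Disjoint C D) (e : V → V → ℝ) (k : ℝ)
    (hk : 0 < k) (he : ∀ v s, 0 ≤ e v s) (h1 : ∀ s ∈ S, ∑ v ∈ C ∪ D, e v s * e v s ≤ k)
    (h2 : ∀ s ∈ S, ∀ t ∈ S, s ≠ t → ∑ v ∈ C ∪ D, e v s * e v t ≤ 1) (u : V → ℝ) :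
    ∑ w ∈ D, (∑ x ∈ C, (∑ s ∈ S, e w s * e x s) * u x) ^ 2 ≤
      ((k + S.card) / 2) ^ 2 * ∑ x ∈ C, u x ^ 2 := by
  set ρ : ℝ := (k + S.card) / 2 with hρ
  have ρ0 : 0 < ρ := by positivity
  set T : V → ℝ := fun w => ∑ x ∈ C, (∑ s ∈ S, e w s * e x s) * u x with hT
  have n2 := norm2 (C ∪ D) S e k hk.le he h1 h2 fun v => if v ∈ C then ρ * u v else T v
  have hD : ∀ v ∈ D, v ∉ C := fun v hv hc => disjoint_left.mp hCD hc hv
  have s1 : ∀ s, ∑ v ∈ C ∪ D, e v s * (if v ∈ C then ρ * u v else T v) =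
      ρ * ∑ v ∈ C, e v s * u v + ∑ v ∈ D, e v s * T v := by
    intro s
    rw [sum_union hCD, mul_sum]
    congr 1
    · exact sum_congr rfl fun v hv => by rw [if_pos hv]; ring
    · exact sum_congr rfl fun v hv => by rw [if_neg (hD v hv)]
  have s2 : ∑ v ∈ C ∪ D, (if v ∈ C then ρ * u v else T v) ^ 2 =
      ρ ^ 2 * ∑ v ∈ C, u v ^ 2 + ∑ v ∈ D, T v ^ 2 := by
    rw [sum_union hCD, mul_sum]
    congr 1
    · exact sum_congr rfl fun v hv => by rw [if_pos hv]; ring
    · exact sum_congr rfl fun v hv => by rw [if_neg (hD v hv)]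
  have s3 : ∑ s ∈ S, (∑ v ∈ C, e v s * u v) * ∑ v ∈ D, e v s * T v = ∑ v ∈ D, T v ^ 2 := by
    simp only [mul_sum]
    rw [sum_comm]
    refine sum_congr rfl fun w _ => ?_
    rw [sq]
    nth_rewrite 2 [hT]
    simp only [sum_mul]
    rw [sum_comm]
    exact sum_congr rfl fun x _ => sum_congr rfl fun s _ => by ring
  simp only [s1, s2] at n2
  have s4 : 4 * ρ * ∑ v ∈ D, T v ^ 2 ≤
      ∑ s ∈ S, (ρ * ∑ v ∈ C, e v s * u v + ∑ v ∈ D, e v s * T v) ^ 2 := by
    rw [← s3, mul_sum]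
    refine sum_le_sum fun s _ => ?_
    nlinarith [sq_nonneg (ρ * ∑ v ∈ C, e v s * u v - ∑ v ∈ D, e v s * T v)]
  have s5 : k + S.card = 2 * ρ := by rw [hρ]; ring
  rw [s5] at n2
  show ∑ w ∈ D, T w ^ 2 ≤ _
  by_contra hlt
  push Not at hlt
  nlinarith [mul_lt_mul_of_pos_left hlt ρ0]

open Classical in
/-- indicator of adjacency -/
noncomputable def ind (G : SimpleGraph V) (x s : V) : ℝ := if G.Adj x s then 1 else 0

open Classical in
/-- weighted number of alternating walks of `j` steps that end in a neighbour of `S` -/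
noncomputable def psi (G : SimpleGraph V) (S C D : Finset V) : ℕ → V → ℝ
  | 0, x => if Port G S x then 1 else 0
  | j + 1, x => if x ∈ C then ∑ w ∈ D, (∑ s ∈ S, ind G x s * ind G w s) * psi G S C D j w
      else ∑ w ∈ C, (∑ s ∈ S, ind G x s * ind G w s) * psi G S C D j w

theorem ind_nonneg (G : SimpleGraph V) (x s : V) : 0 ≤ ind G x s := by
  unfold ind
  split_ifs <;> norm_num

theorem psi_nonneg (G : SimpleGraph V) (S C D : Finset V) : ∀ j x, 0 ≤ psi G S C D j x := by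
  intro j
  induction j with
  | zero =>
    intro x
    unfold psi
    split_ifs <;> norm_num
  | succ j ih =>
    intro x
    unfold psi
    split_ifs <;> exact sum_nonneg fun w _ => mul_nonneg
      (sum_nonneg fun s _ => mul_nonneg (ind_nonneg _ _ _) (ind_nonneg _ _ _)) (ih w)

theorem psi_np {G : SimpleGraph V} {S C D : Finset V} {x : V} (hx : ¬ Port G S x) (j : ℕ) :
    psi G S C D j x = 0 := by
  have h0 : ∀ w, ∑ s ∈ S, ind G x s * ind G w s = 0 := fun w =>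
    sum_eq_zero fun s hs => by
      have : ind G x s = 0 := if_neg fun h => hx ⟨s, hs, h⟩
      rw [this, zero_mul]
  cases j with
  | zero => exact if_neg hx
  | succ j =>
    unfold psi
    simp [h0]

theorem psi_C {G : SimpleGraph V} {S C D : Finset V} {x : V} (hx : x ∈ C) (j : ℕ) :
    psi G S C D (j + 1) x = ∑ w ∈ D, (∑ s ∈ S, ind G x s * ind G w s) * psi G S C D j w := by
  rw [psi, if_pos hx]

theorem psi_D {G : SimpleGraph V} {S C D : Finset V} {x : V} (hx : x ∉ C) (j : ℕ) :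
    psi G S C D (j + 1) x = ∑ w ∈ C, (∑ s ∈ S, ind G x s * ind G w s) * psi G S C D j w := by
  rw [psi, if_neg hx]

theorem psi_norm [Fintype V] [DecidableEq V] {G : SimpleGraph V} [DecidableRel G.Adj]
    {S C D : Finset V} (hc : Cut G S C D) {k : ℕ} (hk : 0 < k)
    (hreg : ∀ v, (univ.filter fun w => G.Adj v w).card = k) (j : ℕ) :
    ∑ x ∈ C, psi G S C D j x ^ 2 + ∑ x ∈ D, psi G S C D j x ^ 2 ≤
      ((((k : ℝ) + S.card) / 2) ^ 2) ^ j * (S.card * k) := by
  have hCD : Disjoint C D := disjoint_left.mpr fun v hv => hc.cd v hv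
  have cnt : ∀ (X : Finset V) (s t : V), ∑ v ∈ X, ind G v s * ind G v t =
      ((X.filter fun v => G.Adj s v ∧ G.Adj t v).card : ℝ) := by
    intro X s t
    rw [card_filter, Nat.cast_sum]
    refine sum_congr rfl fun v _ => ?_
    unfold ind
    by_cases h1 : G.Adj v s <;> by_cases h2 : G.Adj v t <;> simp [h1, h2, G.adj_comm s, G.adj_comm t]
  have h1 : ∀ (X : Finset V), ∀ s ∈ S, ∑ v ∈ X, ind G v s * ind G v s ≤ (k : ℝ) := by
    intro X s _
    rw [cnt, ← hreg s, Nat.cast_le]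
    exact card_le_card fun v hv => mem_filter.mpr ⟨mem_univ _, (mem_filter.mp hv).2.1⟩
  have h2 : ∀ (X : Finset V), ∀ s ∈ S, ∀ t ∈ S, s ≠ t →
      ∑ v ∈ X, ind G v s * ind G v t ≤ (1 : ℝ) := by
    intro X s _ t _ hst
    rw [cnt, Nat.cast_le_one, card_le_one]
    intro a ha b hb
    have ha := (mem_filter.mp ha).2
    have hb := (mem_filter.mp hb).2
    exact hc.t4.uniq hst ha.1.symm ha.2.symm hb.1.symm hb.2.symm
  have k0 : (0 : ℝ) < k := Nat.cast_pos.mpr hk
  induction j with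
  | zero =>
    rw [pow_zero, one_mul, ← sum_union hCD]
    have e1 : ∀ x ∈ C ∪ D, psi G S C D 0 x ^ 2 ≤ ∑ s ∈ S, ind G x s * ind G x s := by
      intro x _
      by_cases hp : Port G S x
      · obtain ⟨s, hs, hxs⟩ := hp
        have e2 : psi G S C D 0 x = 1 := if_pos ⟨s, hs, hxs⟩
        have e3 : ind G x s = 1 := if_pos hxs
        have := single_le_sum (f := fun s => ind G x s * ind G x s)
          (fun s _ => mul_self_nonneg _) hs
        rw [e2]
        simpa [e3] using this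
      · rw [psi_np hp]
        simpa using sum_nonneg fun s _ => mul_self_nonneg (ind G x s)
    refine (sum_le_sum e1).trans ?_
    rw [sum_comm]
    refine (sum_le_sum (h1 (C ∪ D))).trans ?_
    simp
  | succ j ih =>
    have a1 := norm3 C D S hCD (ind G) k k0 (ind_nonneg G) (h1 _) (h2 _) (psi G S C D j)
    have a2 := norm3 D C S hCD.symm (ind G) k k0 (ind_nonneg G) (h1 _) (h2 _) (psi G S C D j)
    have b1 : ∑ x ∈ C, psi G S C D (j + 1) x ^ 2 =
        ∑ x ∈ C, (∑ w ∈ D, (∑ s ∈ S, ind G x s * ind G w s) * psi G S C D j w) ^ 2 :=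
      sum_congr rfl fun x hx => by rw [psi_C hx]
    have b2 : ∑ x ∈ D, psi G S C D (j + 1) x ^ 2 =
        ∑ x ∈ D, (∑ w ∈ C, (∑ s ∈ S, ind G x s * ind G w s) * psi G S C D j w) ^ 2 :=
      sum_congr rfl fun x hx => by rw [psi_D fun h => hc.cd x h hx]
    rw [b1, b2, pow_succ]
    have := mul_le_mul_of_nonneg_left ih (sq_nonneg (((k : ℝ) + S.card) / 2))
    nlinarith

theorem port_cnt {G : SimpleGraph V} (h4 : NoQ G) {S Y : Finset V} {v : V} (hv : v ∉ S)
    (hY : ∀ y ∈ Y, G.Adj v y ∧ Port G S y) : Y.card ≤ S.card := by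
  have : Nonempty V := ⟨v⟩
  choose! f hf1 hf2 using fun y hy => (hY y hy).2
  refine card_le_card_of_injOn f (fun y hy => hf1 y hy) fun y hy y' hy' e => ?_
  by_contra hne
  have := h4.uniq hne (hY y hy).1 (hY y' hy').1 (hf2 y hy).symm (e ▸ (hf2 y' hy').symm)
  exact hv (this ▸ hf1 y hy)

theorem exists_block [Fintype V] [DecidableEq V] {G : SimpleGraph V} [DecidableRel G.Adj]
    (h4 : NoQ G) {S : Finset V} {k : ℕ} (hreg : ∀ v, (univ.filter fun w => G.Adj v w).card = k)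
    (hk : 2 * S.card + 1 ≤ k) {v d : V} (hv : v ∉ S) (hd : ¬ Port G S d) (Bl : Finset V)
    (hBl : ∀ y ∈ Bl, G.Adj v y ∧ Port G S y) :
    ∃ R : Finset V, R.card = S.card ∧ Bl ⊆ R ∧
      ∀ y ∈ R, G.Adj v y ∧ y ≠ d ∧ (Port G S y → y ∈ Bl) := by
  classical
  set N := univ.filter fun w => G.Adj v w with hN
  have h1 : (N.filter fun y => Port G S y).card ≤ S.card :=
    port_cnt h4 hv fun y hy => ⟨(mem_filter.mp (mem_filter.mp hy).1).2, (mem_filter.mp hy).2⟩
  have h2 := card_filter_add_card_filter_not (s := N) (fun y => Port G S y)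
  have h3 := pred_card_le_card_erase (s := N.filter fun y => ¬ Port G S y) (a := d)
  have h5 := card_le_card (subset_union_right (s₁ := Bl)
    (s₂ := (N.filter fun y => ¬ Port G S y).erase d))
  have h6 := hreg v
  obtain ⟨R, r1, r2, r3⟩ := exists_subsuperset_card_eq
    (subset_union_left (s₁ := Bl) (s₂ := (N.filter fun y => ¬ Port G S y).erase d))
    (port_cnt h4 hv hBl) (by rw [← hN] at h6; omega)
  refine ⟨R, r3, r1, fun y hy => ?_⟩
  rcases mem_union.mp (r2 hy) with h | h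
  · exact ⟨(hBl y h).1, fun e => hd (e ▸ (hBl y h).2), fun _ => h⟩
  · obtain ⟨a1, a2⟩ := mem_erase.mp h
    obtain ⟨a2, a3⟩ := mem_filter.mp a2
    exact ⟨(mem_filter.mp a2).2, a1, fun hp => (a3 hp).elim⟩

theorem choice [Fintype V] [DecidableEq V] {G : SimpleGraph V} {S C D : Finset V}
    (hc : Cut G S C D) {d : V} (hdD : d ∈ D) (hdp : ¬ Port G S d) {Q B : Finset V}
    (hQ : ∀ v ∈ Q, G.Adj d v ∧ ¬ Port G S v) (hne : Q.Nonempty) {f g : V → ℝ}
    (f0 : ∀ x, 0 ≤ f x)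
    (hg : ∀ x ∈ B, g x = ∑ w ∈ D, (∑ s ∈ S, ind G x s * ind G w s) * f w) :
    ∃ v ∈ Q, ∃ Bl : Finset V, (∀ y, y ∈ Bl ↔ G.Adj v y ∧ ∃ x ∈ B, Share G S x y) ∧
      Q.card * ∑ y ∈ Bl, f y ≤ ∑ x ∈ B, g x := by
  classical
  let Bl : V → Finset V := fun v => univ.filter fun y => G.Adj v y ∧ ∃ x ∈ B, Share G S x y
  have hBl : ∀ v y, y ∈ Bl v ↔ G.Adj v y ∧ ∃ x ∈ B, Share G S x y := fun v y => by simp [Bl]
  have dis : Set.PairwiseDisjoint (Q : Set V) Bl := by
    intro v hv w hw hvw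
    rw [Function.onFun, Finset.disjoint_left]
    intro y h1 h2
    obtain ⟨a1, x, -, s, hs, -, a2⟩ := (hBl v y).mp h1
    have := hc.t4.uniq hvw a1.symm ((hBl w y).mp h2).1.symm (hQ v hv).1 (hQ w hw).1
    exact hdp (this ▸ ⟨s, hs, a2⟩)
  have nn : ∀ x w, 0 ≤ ∑ s ∈ S, ind G x s * ind G w s := fun x w =>
    sum_nonneg fun s _ => mul_nonneg (ind_nonneg _ _ _) (ind_nonneg _ _ _)
  have e1 : ∑ v ∈ Q, ∑ y ∈ Bl v, f y ≤ ∑ x ∈ B, g x := by
    rw [← sum_biUnion dis, sum_congr rfl hg, sum_comm]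
    have sub : Q.biUnion Bl ⊆ D := by
      intro y hy
      obtain ⟨v, hv, hy⟩ := mem_biUnion.mp hy
      exact hc.symm.nb (hc.symm.nb hdD hdp (hQ v hv).1) (hQ v hv).2 ((hBl v y).mp hy).1
    refine le_trans (sum_le_sum fun y hy => ?_) (sum_le_sum_of_subset_of_nonneg sub
      fun y _ _ => sum_nonneg fun x _ => mul_nonneg (nn x y) (f0 y))
    obtain ⟨v, -, hy⟩ := mem_biUnion.mp hy
    obtain ⟨-, x, hx, s, hs, a1, a2⟩ := (hBl v y).mp hy
    refine le_trans ?_ (single_le_sum (f := fun x => (∑ s ∈ S, ind G x s * ind G y s) * f y)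
      (fun x _ => mul_nonneg (nn x y) (f0 y)) hx)
    have b1 : ind G x s = 1 := if_pos a1
    have b2 : ind G y s = 1 := if_pos a2
    have := single_le_sum (f := fun s => ind G x s * ind G y s)
      (fun s _ => mul_nonneg (ind_nonneg _ _ _) (ind_nonneg _ _ _)) hs
    rw [b1, b2, one_mul] at this
    exact le_mul_of_one_le_left (f0 y) this
  obtain ⟨v, hv, h⟩ := exists_le_of_sum_le (f := fun v => (Q.card : ℝ) * ∑ y ∈ Bl v, f y)
    (g := fun _ => ∑ x ∈ B, g x) hne (by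
      rw [← mul_sum, sum_const, nsmul_eq_mul]
      exact mul_le_mul_of_nonneg_left e1 (Nat.cast_nonneg _))
  exact ⟨v, hv, Bl v, hBl v, h⟩

theorem half [Fintype V] [DecidableEq V] {G : SimpleGraph V} [DecidableRel G.Adj]
    {S C D : Finset V} {c d : V} {k : ℕ} {W : Finset V} {H : SimpleGraph V}
    {U U' P P' : Finset V} (hc : Cut G S C D)
    (hreg : ∀ v, (univ.filter fun w => G.Adj v w).card = k) (hk : 2 * S.card + 1 ≤ k)
    (hcC : c ∈ C) (hcp : ¬ Port G S c) (hdD : d ∈ D) (hdp : ¬ Port G S d)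
    (h : St G C D c d k W H U U' P P') {B Q : Finset V} {u : V} (hu : u ∈ U)
    (hB : ∀ x ∈ B, x ∈ P ∧ G.Adj u x) (hcard : B.card = S.card)
    (hQ : ∀ v ∈ Q, G.Adj d v ∧ ¬ Port G S v) {q : ℕ} (q0 : 0 < q) (hq : q + U'.card ≤ Q.card)
    {f g : V → ℝ} (f0 : ∀ x, 0 ≤ f x) (fp : ∀ x, ¬ Port G S x → f x = 0)
    (hg : ∀ x ∈ C, g x = ∑ w ∈ D, (∑ s ∈ S, ind G x s * ind G w s) * f w) :
    ∃ (v : V) (R : Finset V) (H' : SimpleGraph V),
      St G C D c d k W H' U (insert v U') (P \ B) (P' ∪ R) ∧ R.card = S.card ∧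
      (∀ y ∈ R, G.Adj v y ∧ y ∉ P') ∧ q * ∑ y ∈ R, f y ≤ ∑ x ∈ B, g x := by
  have c1 := le_card_sdiff U' Q
  obtain ⟨v, hv, Bl, b1, b2⟩ := choice hc hdD hdp (Q := Q \ U') (B := B)
    (fun v hv => hQ v (mem_sdiff.mp hv).1) (card_pos.mp (by omega)) f0
    (fun x hx => hg x (h.pc x (hB x hx).1).1)
  obtain ⟨v1, v2⟩ := mem_sdiff.mp hv
  have vD : v ∈ D := hc.symm.nb hdD hdp (hQ v v1).1
  obtain ⟨R, r1, r2, r3⟩ := exists_block hc.t4 hreg hk (hc.sd v vD) hdp Bl fun y hy => by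
    obtain ⟨a1, x, -, s, hs, -, a2⟩ := (b1 y).mp hy
    exact ⟨a1, s, hs, a2⟩
  obtain ⟨s1, H', s2⟩ := h.step hc hcC hcp hdD hdp hu hB (hQ v v1).1 (hQ v v1).2 v2
    (fun y hy => ⟨(r3 y hy).1, (r3 y hy).2.1⟩) (r1.trans hcard.symm)
    (fun y hy x hx hs => r2 ((b1 y).mpr ⟨hy, x, hx, hs⟩))
  refine ⟨v, R, H', s2, r1, fun y hy => ⟨(r3 y hy).1, s1 y hy⟩, le_trans ?_ b2⟩
  rw [← sum_subset r2 fun y hy hn => fp y fun hp => hn ((r3 y hy).2.2 hp)]
  exact mul_le_mul_of_nonneg_right (Nat.cast_le.mpr (by omega)) (sum_nonneg fun y _ => f0 y)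

theorem exists_avoid [DecidableEq V] {A A' : Finset V} (hc : A.card = A'.card) (h2 : 2 ≤ A.card)
    (F : V → V → Prop) (hf : ∀ a ∈ A, ∀ b ∈ A', ∀ b' ∈ A', F a b → F a b' → b = b')
    (hi : ∀ a ∈ A, ∀ a' ∈ A, ∀ b ∈ A', F a b → F a' b → a = a') :
    ∃ σ : V → V, (∀ a ∈ A, σ a ∈ A' ∧ ¬ F a (σ a)) ∧ ∀ a ∈ A, ∀ b ∈ A, σ a = σ b → a = b := by
  classical
  obtain ⟨f, f1, f2⟩ := (all_card_le_biUnion_card_iff_existsInjective'
    (fun a : A => A'.filter fun b => ¬ F a b)).mp (by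
      intro s
      rcases Nat.lt_or_ge 1 s.card with h | h
      · obtain ⟨a, ha, a', ha', hne⟩ := one_lt_card.mp h
        have sub : A' ⊆ s.biUnion fun a : A => A'.filter fun b => ¬ F a b := by
          intro b hb
          by_cases h1 : F a b
          · exact mem_biUnion.mpr ⟨a', ha', mem_filter.mpr ⟨hb, fun h3 =>
              hne (Subtype.ext (hi a a.2 a' a'.2 b hb h1 h3))⟩⟩
          · exact mem_biUnion.mpr ⟨a, ha, mem_filter.mpr ⟨hb, h1⟩⟩
        have := card_le_univ s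
        rw [Fintype.card_coe] at this
        have := card_le_card sub
        omega
      · rcases s.eq_empty_or_nonempty with rfl | ⟨a, ha⟩
        · simp
        · obtain ⟨b, hb, b', hb', hne⟩ := one_lt_card.mp (show 1 < A'.card by omega)
          refine h.trans (card_pos.mpr ?_)
          by_cases h1 : F a b
          · exact ⟨b', mem_biUnion.mpr ⟨a, ha, mem_filter.mpr ⟨hb', fun h3 =>
              hne (hf a a.2 b hb b' hb' h1 h3)⟩⟩⟩
          · exact ⟨b, mem_biUnion.mpr ⟨a, ha, mem_filter.mpr ⟨hb, h1⟩⟩⟩)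
  refine ⟨fun a => if h : a ∈ A then f ⟨a, h⟩ else a, fun a ha => ?_, fun a ha b hb e => ?_⟩
  · simp only [dif_pos ha]
    exact mem_filter.mp (f2 ⟨a, ha⟩)
  · simp only [dif_pos ha, dif_pos hb] at e
    exact congrArg Subtype.val (f1 e)

theorem finish [Fintype V] [DecidableEq V] {G : SimpleGraph V} {S C D : Finset V} {c d : V}
    {k : ℕ} {W : Finset V} {H : SimpleGraph V} {U U' A A' B B' : Finset V} (hc : Cut G S C D)
    (hcC : c ∈ C) (hcp : ¬ Port G S c) (hdD : d ∈ D) (hdp : ¬ Port G S d)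
    (h : St G C D c d k W H U U' (A ∪ B) (A' ∪ B')) (d1 : Disjoint A B) (d2 : Disjoint A' B')
    {c0 d0 u u' : V} (h1 : G.Adj c c0) (h2 : G.Adj d d0) (hu : u ∈ U) (hu' : u' ∈ U')
    (hA : ∀ x ∈ A, G.Adj c0 x ∧ ¬ Port G S x) (hA' : ∀ x ∈ A', G.Adj d0 x ∧ ¬ Port G S x)
    (hB : ∀ x ∈ B, G.Adj u x ∧ ¬ Port G S x) (hB' : ∀ x ∈ B', G.Adj u' x ∧ ¬ Port G S x)
    (cA : A.card = A'.card) (c2 : 2 ≤ A.card) (cB : B.card = B'.card) :
    ∃ H', RegOn H' W k ∧ GirthGe H' 5 := by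
  have : Nonempty V := ⟨c⟩
  obtain ⟨τ, t1, t2⟩ := exists_inj B B' cB.le
  have nc : ∀ x ∈ A ∪ B, ¬ G.Adj c x := fun x hx => h.pnc hc hx
  have nd : ∀ x ∈ A' ∪ B', ¬ G.Adj d x := fun x hx => h.symm.pnc hc.symm hx
  obtain ⟨σ, s1, s2⟩ := exists_avoid cA c2 (fun a b => ∃ g ∈ B, G.Adj a g ∧ G.Adj b (τ g))
    (by
      rintro a ha b hb b' hb' ⟨g, hg, a1, a2⟩ ⟨g', hg', a3, a4⟩
      have e : g = g' := by
        by_contra hne
        exact nc a (mem_union_left _ ha)
          (hc.t4.uniq hne a1 a3 (hB g hg).1 (hB g' hg').1 ▸ h.uc u hu)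
      subst e
      by_contra hne
      exact nd _ (mem_union_right _ (t1 g hg))
        (hc.t4.uniq hne a2.symm a4.symm (hA' b hb).1 (hA' b' hb').1 ▸ h2))
    (by
      rintro a ha a' ha' b hb ⟨g, hg, a1, a2⟩ ⟨g', hg', a3, a4⟩
      have e : τ g = τ g' := by
        by_contra hne
        exact nd b (mem_union_left _ hb)
          (hc.t4.uniq hne a2 a4 (hB' _ (t1 g hg)).1 (hB' _ (t1 g' hg')).1 ▸ h.ud u' hu')
      have e := t2 g hg g' hg' e
      subst e
      by_contra hne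
      exact nc _ (mem_union_right _ hg)
        (hc.t4.uniq hne a1.symm a3.symm (hA a ha).1 (hA a' ha').1 ▸ h1))
  have nA : ∀ x ∈ B, x ∉ A := fun x hx ha => disjoint_left.mp d1 ha hx
  have hπ : ∀ x ∈ A ∪ B, (if x ∈ A then σ x else τ x) ∈ A' ∪ B' := by
    intro x hx
    rcases mem_union.mp hx with hx | hx
    · rw [if_pos hx]
      exact mem_union_left _ (s1 x hx).1
    · rw [if_neg (nA x hx)]
      exact mem_union_right _ (t1 x hx)
  have hinj : ∀ x ∈ A ∪ B, ∀ x' ∈ A ∪ B, (if x ∈ A then σ x else τ x) =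
      (if x' ∈ A then σ x' else τ x') → x = x' := by
    intro x hx x' hx' e
    rcases mem_union.mp hx with hx | hx <;> rcases mem_union.mp hx' with hx' | hx'
    · rw [if_pos hx, if_pos hx'] at e
      exact s2 x hx x' hx' e
    · rw [if_pos hx, if_neg (nA _ hx')] at e
      exact (disjoint_left.mp d2 (s1 x hx).1 (e ▸ t1 x' hx')).elim
    · rw [if_neg (nA _ hx), if_pos hx'] at e
      exact (disjoint_left.mp d2 (s1 x' hx').1 (e ▸ t1 x hx)).elim
    · rw [if_neg (nA _ hx), if_neg (nA _ hx')] at e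
      exact t2 x hx x' hx' e
  refine h.final hc hcC hcp hdD hdp ?_ ?_ (fun x => if x ∈ A then σ x else τ x) hπ hinj ?_ ?_
  · intro x hx
    exact (mem_union.mp hx).elim (fun a => (hA x a).2) fun a => (hB x a).2
  · intro x hx
    exact (mem_union.mp hx).elim (fun a => (hA' x a).2) fun a => (hB' x a).2
  · intro y hy
    obtain ⟨x, hx, e⟩ := surj_on_of_inj_on_of_card_le (s := A ∪ B) (t := A' ∪ B')
      (fun x _ => if x ∈ A then σ x else τ x) hπ (fun x x' hx hx' e => hinj x hx x' hx' e)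
      (by rw [card_union_of_disjoint d1, card_union_of_disjoint d2]; omega) y hy
    exact ⟨x, hx, e.symm⟩
  · intro x hx x' hx' a1 a2
    rcases mem_union.mp hx with hx | hx <;> rcases mem_union.mp hx' with hx' | hx'
    · exact hc.t3 c0 x x' (hA x hx).1 a1 (hA x' hx').1.symm
    · simp only [if_pos hx, if_neg (nA _ hx')] at a2
      exact (s1 x hx).2 ⟨x', hx', a1, a2⟩
    · simp only [if_neg (nA _ hx), if_pos hx'] at a2
      exact (s1 x' hx').2 ⟨x, hx, a1.symm, a2.symm⟩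
    · exact hc.t3 u x x' (hB x hx).1 a1 (hB x' hx').1.symm

/-- thresholds for the two sides -/
def wt (p q : ℝ) : ℕ → ℝ × ℝ
  | 0 => (1, 1)
  | j + 1 => (q * (wt p q j).2, p * (wt p q j).1)

theorem wt_even (p q : ℝ) (N : ℕ) : wt p q (2 * N) = ((p * q) ^ N, (p * q) ^ N) := by
  induction N with
  | zero => simp [wt]
  | succ N ih =>
    rw [show 2 * (N + 1) = 2 * N + 1 + 1 by ring, wt, wt, ih]
    ext <;> simp only [pow_succ] <;> ring

theorem rounds [Fintype V] [DecidableEq V] {G : SimpleGraph V} [DecidableRel G.Adj]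
    {S C D : Finset V} {c d : V} {k : ℕ} {W : Finset V} (hc : Cut G S C D)
    (hreg : ∀ v, (univ.filter fun w => G.Adj v w).card = k) (hk : 2 * S.card + 1 ≤ k)
    (hcC : c ∈ C) (hcp : ¬ Port G S c) (hdD : d ∈ D) (hdp : ¬ Port G S d)
    {A A' Q Q' : Finset V} {c0 d0 : V} (h1 : G.Adj c c0) (h2 : G.Adj d d0)
    (hA : ∀ x ∈ A, G.Adj c0 x ∧ ¬ Port G S x) (hA' : ∀ x ∈ A', G.Adj d0 x ∧ ¬ Port G S x)
    (cA : A.card = A'.card) (c2 : 2 ≤ A.card)
    (hQ : ∀ v ∈ Q, G.Adj c v ∧ ¬ Port G S v) (hQ' : ∀ v ∈ Q', G.Adj d v ∧ ¬ Port G S v)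
    {p q L : ℕ} (p0 : 0 < p) (q0 : 0 < q) (hp : p + L ≤ Q.card) (hq : q + L ≤ Q'.card) :
    ∀ (j : ℕ) (H : SimpleGraph V) (U U' B B' : Finset V) (u u' : V),
      St G C D c d k W H U U' (A ∪ B) (A' ∪ B') → Disjoint A B → Disjoint A' B' →
      B.card = S.card → B'.card = S.card → u ∈ U → u' ∈ U' → (∀ x ∈ B, G.Adj u x) →
      (∀ x ∈ B', G.Adj u' x) → U.card + j ≤ L → U'.card + j ≤ L →
      ∑ x ∈ B, psi G S C D j x < (wt p q j).1 → ∑ x ∈ B', psi G S C D j x < (wt p q j).2 →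
      ∃ H', RegOn H' W k ∧ GirthGe H' 5 := by
  intro j
  induction j with
  | zero =>
    intro H U U' B B' u u' h d1 d2 cB cB' hu hu' hB hB' _ _ w1 w2
    have np : ∀ X : Finset V, ∑ x ∈ X, psi G S C D 0 x < 1 → ∀ x ∈ X, ¬ Port G S x := by
      intro X hX x hx hp
      have a1 := single_le_sum (fun x _ => psi_nonneg G S C D 0 x) hx
      have a2 : psi G S C D 0 x = 1 := if_pos hp
      linarith
    exact finish hc hcC hcp hdD hdp h d1 d2 h1 h2 hu hu' hA hA'
      (fun x hx => ⟨hB x hx, np B w1 x hx⟩) (fun x hx => ⟨hB' x hx, np B' w2 x hx⟩) cA c2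
      (cB.trans cB'.symm)
  | succ j ih =>
    intro H U U' B B' u u' h d1 d2 cB cB' hu hu' hB hB' l1 l2 w1 w2
    obtain ⟨v, R, H1, s1, r1, r2, r3⟩ := half hc hreg hk hcC hcp hdD hdp h hu
      (fun x hx => ⟨mem_union_right _ hx, hB x hx⟩) cB hQ' q0 (by omega)
      (psi_nonneg G S C D j) (fun x hx => psi_np hx j) (fun x hx => psi_C hx j)
    obtain ⟨w, R', H2, s2, r4, r5, r6⟩ := half hc.symm hreg hk hdD hdp hcC hcp s1.symm
      (mem_insert_of_mem hu')
      (fun x hx => ⟨mem_union_left _ (mem_union_right _ hx), hB' x hx⟩) cB' hQ p0 (by omega)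
      (psi_nonneg G S C D j) (fun x hx => psi_np hx j)
      (fun x hx => psi_D (fun a => hc.cd x a hx) j)
    have e1 : (A ∪ B) \ B = A := union_sdiff_cancel_right d1
    have e2 : (A' ∪ B' ∪ R) \ B' = A' ∪ R := by
      ext x
      have a1 : x ∈ A' → x ∉ B' := fun a => disjoint_left.mp d2 a
      have a2 : x ∈ R → x ∉ B' := fun a b => (r2 x a).2 (mem_union_right _ b)
      simp only [mem_sdiff, mem_union]
      tauto
    rw [e1] at s2 r5
    rw [e2] at s2
    have i1 := card_insert_le w U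
    have i2 := card_insert_le v U'
    refine ih H2 (insert w U) (insert v U') R' R w v s2.symm
      (disjoint_right.mpr fun x hx => (r5 x hx).2)
      (disjoint_right.mpr fun x hx a => (r2 x hx).2 (mem_union_left _ a)) r4 r1
      (mem_insert_self _ _) (mem_insert_self _ _) (fun x hx => (r5 x hx).1)
      (fun x hx => (r2 x hx).1) (by omega) (by omega) ?_ ?_
    · exact lt_of_mul_lt_mul_left (r6.trans_lt w2) (Nat.cast_nonneg _)
    · exact lt_of_mul_lt_mul_left (r3.trans_lt w1) (Nat.cast_nonneg _)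

theorem side [Fintype V] [DecidableEq V] {G : SimpleGraph V} [DecidableRel G.Adj]
    {S C D : Finset V} (hc : Cut G S C D) {k : ℕ}
    (hreg : ∀ v, (univ.filter fun w => G.Adj v w).card = k) (hk : 2 * S.card + 1 ≤ k)
    (hne : C.Nonempty) {Y : Finset V} (hY : ∀ y, y ∈ Y ↔ y ∈ C ∧ Port G S y) :
    ∃ c ∈ C, ¬ Port G S c ∧ ∃ (Q : Finset V) (π : ℕ), (∀ v ∈ Q, G.Adj c v ∧ ¬ Port G S v) ∧
      Q.card + π = k ∧ π ≤ S.card ∧ π * (k * (k - 1)) ≤ π * S.card + Y.card * (k + π) := by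
  classical
  set N : V → Finset V := fun v => univ.filter fun w => G.Adj v w with hN
  have mN : ∀ v w, w ∈ N v ↔ G.Adj v w := fun v w => by simp [hN]
  have pc : ∀ v ∈ C, ((N v).filter fun y => Port G S y).card ≤ S.card := fun v hv =>
    port_cnt hc.t4 (hc.sc v hv) fun y hy =>
      ⟨(mN _ _).mp (mem_filter.mp hy).1, (mem_filter.mp hy).2⟩
  have zne : (C.filter fun z => ¬ Port G S z).Nonempty := by
    obtain ⟨x, hx⟩ := hne
    by_contra hh
    have sub : N x ⊆ S ∪ (N x).filter fun y => Port G S y := by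
      intro y hy
      rcases hc.cov y with h | h | h
      · exact mem_union_left _ h
      · refine mem_union_right _ (mem_filter.mpr ⟨hy, ?_⟩)
        by_contra hp
        exact hh ⟨y, mem_filter.mpr ⟨h, hp⟩⟩
      · exact (hc.noe x hx y h ((mN _ _).mp hy)).elim
    have a1 := (card_le_card sub).trans (card_union_le _ _)
    have a2 := pc x hx
    have a3 : (N x).card = k := hreg x
    omega
  obtain ⟨c, hz, hmin⟩ := exists_min_image (C.filter fun z => ¬ Port G S z)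
    (fun v => ((N v).filter fun y => Port G S y).card) zne
  obtain ⟨hcC, hcp⟩ := mem_filter.mp hz
  refine ⟨c, hcC, hcp, (N c).filter fun y => ¬ Port G S y, _, fun v hv =>
    ⟨(mN _ _).mp (mem_filter.mp hv).1, (mem_filter.mp hv).2⟩, ?_, pc c hcC, ?_⟩
  · rw [add_comm, card_filter_add_card_filter_not]
    exact hreg c
  have big : k * (k - 1) ≤ C.card + S.card := by
    have e1 : ((N c).biUnion fun w => (N w).erase c).card = k * (k - 1) := by
      rw [card_biUnion, sum_congr rfl (g := fun _ => k - 1), sum_const, smul_eq_mul, hreg c]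
      · intro w hw
        rw [card_erase_of_mem ((mN _ _).mpr ((mN _ _).mp hw).symm), hreg w]
      · intro v hv w hw hvw
        rw [Function.onFun, Finset.disjoint_left]
        intro y h1 h2
        exact (mem_erase.mp h1).1 (hc.t4.uniq hvw ((mN _ _).mp (mem_erase.mp h1).2).symm
          ((mN _ _).mp (mem_erase.mp h2).2).symm ((mN _ _).mp hv) ((mN _ _).mp hw))
    rw [← e1]
    refine (card_le_card fun y hy => ?_).trans (card_union_le C S)
    obtain ⟨w, hw, hy⟩ := mem_biUnion.mp hy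
    rcases hc.cov y with h | h | h
    · exact mem_union_right _ h
    · exact mem_union_left _ h
    · exact (hc.noe w (hc.nb hcC hcp ((mN _ _).mp hw)) y h
        ((mN _ _).mp (mem_erase.mp hy).2)).elim
  have avg := card_mul_le_card_mul (s := C.filter fun z => ¬ Port G S z) (t := Y)
    (m := ((N c).filter fun y => Port G S y).card) (n := k) G.Adj
    (fun a ha => (hmin a ha).trans (card_le_card fun y hy => by
      obtain ⟨a1, a2⟩ := mem_filter.mp hy
      have a1 := (mN _ _).mp a1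
      exact (mem_bipartiteAbove _).mpr ⟨(hY y).mpr
        ⟨hc.nb (mem_filter.mp ha).1 (mem_filter.mp ha).2 a1, a2⟩, a1⟩))
    (fun b _ => (card_le_card (t := N b) fun y hy =>
      (mN b y).mpr (G.adj_symm ((mem_bipartiteBelow G.Adj).mp hy).2)).trans (hreg b).le)
  have spl := card_filter_add_card_filter_not (s := C) (fun z => Port G S z)
  have eY : C.filter (fun z => Port G S z) = Y := by
    ext y
    rw [mem_filter, hY]
  rw [eY] at spl
  rw [← spl] at big
  have := Nat.mul_le_mul_left ((N c).filter fun y => Port G S y).card big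
  nlinarith

theorem num1 {k κ x y a b L : ℝ} (hk : 1000 ≤ k) (h5 : 5 * κ ≤ 2 * k) (x0 : 0 ≤ x) (y0 : 0 ≤ y)
    (hx : x ≤ κ) (hy : y ≤ κ) (ha : x * (k * (k - 1)) ≤ x * κ + a * (k + x))
    (hb : y * (k * (k - 1)) ≤ y * κ + b * (k + y)) (hab : a + b ≤ κ * k) (L0 : 0 ≤ L)
    (hL : 100 * L ≤ k) : k ^ 2 / 2 ≤ (k - x - L) * (k - y - L) := by
  have k0 : 0 < k := by linarith
  have m1 : 400 / 401 * k ^ 2 ≤ k * (k - 1) - κ := by nlinarith
  have a1 : x * (400 / 401 * k ^ 2) ≤ a * (k + x) := by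
    nlinarith [mul_le_mul_of_nonneg_left m1 x0]
  have b1 : y * (400 / 401 * k ^ 2) ≤ b * (k + y) := by
    nlinarith [mul_le_mul_of_nonneg_left m1 y0]
  have c1 : a + b ≤ 2 / 5 * k ^ 2 := by nlinarith
  have a2 := mul_le_mul_of_nonneg_right a1 (show 0 ≤ k + y by linarith)
  have b2 := mul_le_mul_of_nonneg_right b1 (show 0 ≤ k + x by linarith)
  have c2 := mul_le_mul_of_nonneg_right c1
    (mul_nonneg (show 0 ≤ k + x by linarith) (show 0 ≤ k + y by linarith))
  have d1 : k ^ 2 * (400 / 401 * (x * (k + y) + y * (k + x))) ≤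
      k ^ 2 * (2 / 5 * ((k + x) * (k + y))) := by nlinarith
  have d2 := le_of_mul_le_mul_left d1 (by positivity)
  have d3 : 0 ≤ (2 / 5 * k - x) * (2 / 5 * k - y) := mul_nonneg (by linarith) (by linarith)
  have d4 : 13 / 25 * k ^ 2 ≤ (k - x) * (k - y) := by nlinarith
  have d5 := mul_le_mul_of_nonneg_left hL k0.le
  nlinarith [mul_nonneg L0 x0, mul_nonneg L0 y0, mul_nonneg L0 L0]

theorem num2 {k : ℕ} (hk : 2 ^ 18 ≤ k) :
    ∃ N : ℕ, 100 * (2 * N + 1) ≤ k ∧ (k : ℝ) ^ 3 * (49 / 50) ^ (2 * N) < 1 := by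
  have k0 : k ≠ 0 := by omega
  have t1 : 18 ≤ Nat.log 2 k := Nat.le_log_of_pow_le (by norm_num) hk
  have t2 := Nat.pow_log_le_self 2 k0
  have t3 := Nat.lt_pow_succ_log_self (show 1 < 2 by norm_num) k
  generalize Nat.log 2 k = t at t1 t2 t3
  have t4 : ∀ n, 18 ≤ n → 10600 * n + 10700 ≤ 2 ^ n := by
    intro n hn
    induction n, hn using Nat.le_induction with
    | base => norm_num
    | succ n _ ih =>
      rw [pow_succ]
      omega
  refine ⟨53 * (t + 1), by have := t4 t t1; omega, ?_⟩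
  have a1 : (k : ℝ) ^ 3 < (2 ^ (t + 1)) ^ 3 :=
    pow_lt_pow_left₀ (by exact_mod_cast t3) (Nat.cast_nonneg _) (by norm_num)
  have a2 : ((2 : ℝ) ^ (t + 1)) ^ 3 * (49 / 50) ^ (2 * (53 * (t + 1))) =
      (8 * (49 / 50) ^ 106) ^ (t + 1) := by
    rw [mul_pow, ← pow_mul, ← pow_mul, mul_comm (t + 1) 3, pow_mul, ← mul_assoc 2 53]
    norm_num
  have a3 : ((8 : ℝ) * (49 / 50) ^ 106) ^ (t + 1) ≤ 1 :=
    pow_le_one₀ (by positivity) (by norm_num)
  calc (k : ℝ) ^ 3 * (49 / 50) ^ (2 * (53 * (t + 1)))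
      < (2 ^ (t + 1)) ^ 3 * (49 / 50) ^ (2 * (53 * (t + 1))) :=
        mul_lt_mul_of_pos_right a1 (by positivity)
    _ ≤ 1 := a2 ▸ a3

theorem five_smaller [Fintype V] [DecidableEq V] {G : SimpleGraph V} [DecidableRel G.Adj]
    {S C D : Finset V} (hc : Cut G S C D) {k : ℕ}
    (hreg : ∀ v, (univ.filter fun w => G.Adj v w).card = k) (hk : 2 ^ 18 ≤ k)
    (h5 : 5 * S.card ≤ 2 * k) (hC : C.Nonempty) (hD : D.Nonempty) :
    ∃ (H : SimpleGraph V) (W : Finset V), RegOn H W k ∧ GirthGe H 5 ∧ W.Nonempty ∧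
      W.card < Fintype.card V := by
  classical
  have hk2 : 2 * S.card + 1 ≤ k := by omega
  obtain ⟨c, hcC, hcp, Q, x, hQ, q1, q2, q3⟩ := side hc hreg hk2 hC
    (Y := C.filter fun y => Port G S y) fun y => mem_filter
  obtain ⟨d, hdD, hdp, Q', y, hQ', q4, q5, q6⟩ := side hc.symm hreg hk2 hD
    (Y := D.filter fun y => Port G S y) fun y => mem_filter
  have hY : (C.filter fun y => Port G S y).card + (D.filter fun y => Port G S y).card ≤
      S.card * k := by
    rw [← card_union_of_disjoint (disjoint_filter_filter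
      (Finset.disjoint_left.mpr fun v hv => hc.cd v hv))]
    refine (card_le_card fun v hv => ?_).trans (card_biUnion_le_card_mul S
      (fun s => univ.filter fun w => G.Adj s w) k fun s _ => (hreg s).le)
    have : Port G S v := (mem_union.mp hv).elim (fun h => (mem_filter.mp h).2)
      fun h => (mem_filter.mp h).2
    obtain ⟨s, hs, h⟩ := this
    exact mem_biUnion.mpr ⟨s, hs, mem_filter.mpr ⟨mem_univ _, h.symm⟩⟩
  obtain ⟨N, n1, n2⟩ := num2 hk
  obtain ⟨c0, hc0⟩ : Q.Nonempty := card_pos.mp (by omega)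
  obtain ⟨d0, hd0⟩ : Q'.Nonempty := card_pos.mp (by omega)
  obtain ⟨a1, a2⟩ := hQ c0 hc0
  obtain ⟨b1, b2⟩ := hQ' d0 hd0
  have c0C := hc.nb hcC hcp a1
  have d0D := hc.symm.nb hdD hdp b1
  have blk : ∀ v w, v ∉ S → ¬ Port G S w → G.Adj w v → ∃ A B : Finset V, B.card = S.card ∧
      A.card + S.card + 1 = k ∧ Disjoint A B ∧ (∀ x ∈ A, G.Adj v x ∧ ¬ Port G S x) ∧
      (∀ x ∈ B, G.Adj v x) ∧ ∀ x, x ∈ A ∪ B ↔ G.Adj v x ∧ x ≠ w := by
    intro v w hv hw hwv
    obtain ⟨R, r1, r2, r3⟩ := exists_block hc.t4 hreg hk2 hv hw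
      (univ.filter fun y => G.Adj v y ∧ Port G S y) fun y hy => (mem_filter.mp hy).2
    have sub : R ⊆ (univ.filter fun y => G.Adj v y).erase w := fun y hy =>
      mem_erase.mpr ⟨(r3 y hy).2.1, mem_filter.mpr ⟨mem_univ _, (r3 y hy).1⟩⟩
    have e1 := card_sdiff_add_card_eq_card sub
    rw [card_erase_of_mem (mem_filter.mpr ⟨mem_univ _, hwv.symm⟩), hreg v] at e1
    refine ⟨(univ.filter fun y => G.Adj v y).erase w \ R, R, r1, by omega, sdiff_disjoint,
      fun x hx => ?_, fun x hx => (r3 x hx).1, fun x => ?_⟩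
    · obtain ⟨h1, h2⟩ := mem_sdiff.mp hx
      have h3 := (mem_filter.mp (mem_erase.mp h1).2).2
      exact ⟨h3, fun hp => h2 (r2 (mem_filter.mpr ⟨mem_univ _, h3, hp⟩))⟩
    · rw [sdiff_union_of_subset sub]
      simp [and_comm]
  obtain ⟨A, B, e1, e2, e3, e4, e5, e6⟩ := blk c0 c (hc.sc _ c0C) hcp a1
  obtain ⟨A', B', f1, f2, f3, f4, f5, f6⟩ := blk d0 d (hc.sd _ d0D) hdp b1
  obtain ⟨H, h⟩ := St.init hc (fun v => (card_nbr v).trans (hreg v)) hcC hcp hdD hdp a1 a2 b1 b2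
    e6 f6
  obtain ⟨p, hp⟩ : ∃ p, p + (2 * N + 1) = Q.card := ⟨Q.card - (2 * N + 1), by omega⟩
  obtain ⟨q, hq⟩ : ∃ q, q + (2 * N + 1) = Q'.card := ⟨Q'.card - (2 * N + 1), by omega⟩
  have kR : (1000 : ℝ) ≤ k := by exact_mod_cast (show 1000 ≤ k by omega)
  have h5R : 5 * (S.card : ℝ) ≤ 2 * k := by exact_mod_cast h5
  have pq : (k : ℝ) ^ 2 / 2 ≤ p * q := by
    have k1 : ((k - 1 : ℕ) : ℝ) = k - 1 := by rw [Nat.cast_sub (by omega), Nat.cast_one]
    have p1 : (p : ℝ) = k - x - (2 * N + 1 : ℕ) := by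
      rw [← q1, ← hp]
      push_cast
      ring
    have p2 : (q : ℝ) = k - y - (2 * N + 1 : ℕ) := by
      rw [← q4, ← hq]
      push_cast
      ring
    rw [p1, p2]
    refine num1 (a := (C.filter fun y => Port G S y).card)
      (b := (D.filter fun y => Port G S y).card) kR h5R (Nat.cast_nonneg _) (Nat.cast_nonneg _)
      (Nat.cast_le.mpr q2) (Nat.cast_le.mpr q5) ?_ ?_ (by exact_mod_cast hY) (Nat.cast_nonneg _)
      (by exact_mod_cast n1)
    · rw [← k1]
      exact_mod_cast q3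
    · rw [← k1]
      exact_mod_cast q6
  have nrm := psi_norm hc (by omega) hreg (2 * N)
  have start : ∀ X : Finset V, X.card = S.card →
      ∑ x ∈ X, psi G S C D (2 * N) x ^ 2 ≤ ((((k : ℝ) + S.card) / 2) ^ 2) ^ (2 * N) * (S.card * k) →
      ∑ x ∈ X, psi G S C D (2 * N) x < ((p : ℝ) * q) ^ N := by
    intro X hX hs
    have s0 : (0 : ℝ) ≤ S.card := Nat.cast_nonneg _
    have g1 := sq_sum_le_card_mul_sum_sq (s := X) (f := psi G S C D (2 * N))
    rw [hX] at g1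
    have g2 : (((k : ℝ) + S.card) / 2) ^ 2 ≤ 49 / 50 * (p * q) := by nlinarith
    have g3 := pow_le_pow_left₀ (sq_nonneg _) g2 (2 * N)
    rw [mul_pow] at g3
    have pos : (0 : ℝ) < p * q := by nlinarith
    have g4 : (S.card : ℝ) * (S.card * k) ≤ k ^ 3 := by
      nlinarith [mul_le_mul (show (S.card : ℝ) ≤ k by linarith) (show (S.card : ℝ) ≤ k by linarith)
        s0 (by linarith)]
    refine lt_of_pow_lt_pow_left₀ 2 (by positivity) ?_
    rw [← pow_mul, mul_comm N 2]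
    calc _ ≤ S.card * (((((k : ℝ) + S.card) / 2) ^ 2) ^ (2 * N) * (S.card * k)) :=
          g1.trans (mul_le_mul_of_nonneg_left hs s0)
      _ = (S.card * (S.card * k)) * ((((k : ℝ) + S.card) / 2) ^ 2) ^ (2 * N) := by ring
      _ ≤ k ^ 3 * ((49 / 50) ^ (2 * N) * (p * q) ^ (2 * N)) :=
          mul_le_mul g4 g3 (by positivity) (by positivity)
      _ = (k ^ 3 * (49 / 50) ^ (2 * N)) * (p * q) ^ (2 * N) := by ring
      _ < 1 * (p * q) ^ (2 * N) := mul_lt_mul_of_pos_right n2 (by positivity)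
      _ = _ := one_mul _
  have nn : ∀ X : Finset V, 0 ≤ ∑ x ∈ X, psi G S C D (2 * N) x ^ 2 := fun X =>
    sum_nonneg fun x _ => sq_nonneg _
  obtain ⟨H', r1, r2⟩ := rounds hc hreg hk2 hcC hcp hdD hdp a1 b1 e4 f4 (by omega) (by omega) hQ hQ'
    (show 0 < p by omega) (show 0 < q by omega) hp.le hq.le (2 * N) H {c0} {d0} B B' c0 d0 h e3 f3
    e1 f1 (mem_singleton_self _) (mem_singleton_self _) e5 f5 (by simp [add_comm])
    (by simp [add_comm])
    (by
      rw [wt_even]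
      refine start B e1 (le_trans ?_ ((le_add_of_nonneg_right (nn D)).trans nrm))
      exact sum_le_sum_of_subset_of_nonneg (fun x hx => hc.nb c0C a2 (e5 x hx))
        fun x _ _ => sq_nonneg _)
    (by
      rw [wt_even]
      refine start B' f1 (le_trans ?_ ((le_add_of_nonneg_left (nn C)).trans nrm))
      exact sum_le_sum_of_subset_of_nonneg (fun x hx => hc.symm.nb d0D b2 (f5 x hx))
        fun x _ _ => sq_nonneg _)
  refine ⟨H', _, r1, r2, ⟨c, ?_⟩, ?_⟩
  · exact mem_erase.mpr ⟨fun e => hc.cd c hcC (e ▸ d0D), mem_erase.mpr ⟨a1.ne, mem_univ _⟩⟩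
  · exact (card_erase_le).trans_lt (card_erase_lt_of_mem (mem_univ _))

end Pool.Agent.MP_0be28d_co.Five
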